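import Mathlib
set_option autoImplicit false

namespace H471Z.Dif

/-- orbit relation of a permutation action given as a homomorphism. -/
def orb {D Ω : Type} [Group D] (α : D →* Equiv.Perm Ω) : Setoid Ω where
  r x y := ∃ d, α d x = y
  iseqv := ⟨fun x => ⟨1, by simp⟩,
    fun ⟨d, h⟩ => ⟨d⁻¹, by rw [← h, map_inv]; simp⟩,
    fun ⟨d, h⟩ ⟨d', h'⟩ => ⟨d' * d, by rw [map_mul, Equiv.Perm.mul_apply, h, h']⟩⟩

theorem exists_sec {D Ω I : Type} [Group D] (α : D →* Equiv.Perm Ω) (p : I → Ω)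
    (hp : ∀ i j d, α d (p i) = p j → i = j) :
    ∃ s : Quotient (orb α) → Ω, (∀ o, Quotient.mk (orb α) (s o) = o) ∧
      ∀ i, s (Quotient.mk (orb α) (p i)) = p i := by
  classical
  refine ⟨fun o => if h : ∃ i, Quotient.mk (orb α) (p i) = o then p h.choose else o.out, ?_, ?_⟩
  · intro o
    by_cases h : ∃ i, Quotient.mk (orb α) (p i) = o
    · simp only [dif_pos h]; exact h.choose_spec
    · simp only [dif_neg h]; exact Quotient.out_eq o
  · intro i
    have h : ∃ j, Quotient.mk (orb α) (p j) = Quotient.mk (orb α) (p i) := ⟨i, rfl⟩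
    simp only [dif_pos h]
    obtain ⟨d, hd⟩ := Quotient.exact h.choose_spec
    rw [hp _ _ d hd]

theorem ext_inj {D Ω I : Type} [Group D] [Finite Ω] [Finite I] (α β : D →* Equiv.Perm Ω)
    (K : D → Prop) (hα : ∀ d ω, α d ω = ω ↔ K d) (hβ : ∀ d ω, β d ω = ω ↔ K d)
    (p q : I → Ω) (hp : ∀ i j d, α d (p i) = p j → i = j) (hq : ∀ i j d, β d (q i) = q j → i = j)
    (hc : Nat.card (Quotient (orb α)) ≤ Nat.card (Quotient (orb β))) :
    ∃ T : Equiv.Perm Ω, (∀ d ω, T (α d ω) = β d (T ω)) ∧ ∀ i, T (p i) = q i := by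
  classical
  obtain ⟨s, hs, hsp⟩ := exists_sec α p hp
  obtain ⟨s', hs', hsq⟩ := exists_sec β q hq
  have := Fintype.ofFinite (Quotient (orb α))
  have := Fintype.ofFinite (Quotient (orb β))
  rw [Nat.card_eq_fintype_card, Nat.card_eq_fintype_card] at hc
  obtain ⟨e₀⟩ := Function.Embedding.nonempty_of_card_le hc
  obtain ⟨σ, hσ⟩ := Equiv.Perm.exists_extending_pair
    (fun i => e₀ (Quotient.mk (orb α) (p i))) (fun i => Quotient.mk (orb β) (q i))
    (by
      intro i j h
      obtain ⟨d, hd⟩ := Quotient.exact (e₀.injective h)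
      exact hp _ _ d hd)
    (by
      intro i j h
      obtain ⟨d, hd⟩ := Quotient.exact h
      exact hq _ _ d hd)
  have hd : ∀ ω, ∃ d, α d (s (Quotient.mk (orb α) ω)) = ω := fun ω => Quotient.exact (hs _)
  choose dd hdd using hd
  -- key transfer
  have tr : ∀ d d' x y, α d x = α d' x → β d y = β d' y := by
    intro d d' x y h
    have h1 : α (d'⁻¹ * d) x = x := by
      rw [map_mul, Equiv.Perm.mul_apply, h, map_inv]; simp
    have h2 := (hβ _ y).2 ((hα _ _).1 h1)
    rw [map_mul, Equiv.Perm.mul_apply, map_inv] at h2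
    have := congrArg (β d') h2
    simpa using this
  have tr' : ∀ d d' x y, β d x = β d' x → α d y = α d' y := by
    intro d d' x y h
    have h1 : β (d'⁻¹ * d) x = x := by
      rw [map_mul, Equiv.Perm.mul_apply, h, map_inv]; simp
    have h2 := (hα _ y).2 ((hβ _ _).1 h1)
    rw [map_mul, Equiv.Perm.mul_apply, map_inv] at h2
    have := congrArg (α d') h2
    simpa using this
  let T : Ω → Ω := fun ω => β (dd ω) (s' (σ (e₀ (Quotient.mk (orb α) ω))))
  have hT : Function.Injective T := by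
    intro x y h
    have h1 : Quotient.mk (orb β) (s' (σ (e₀ (Quotient.mk (orb α) x)))) =
        Quotient.mk (orb β) (s' (σ (e₀ (Quotient.mk (orb α) y)))) := by
      refine Quotient.sound ⟨(dd y)⁻¹ * dd x, ?_⟩
      rw [map_mul, Equiv.Perm.mul_apply, map_inv]
      show (β (dd y))⁻¹ (T x) = _
      rw [h]
      simp [T]
    rw [hs', hs'] at h1
    have h2 := e₀.injective (σ.injective h1)
    simp only [T] at h
    rw [h2] at h
    have := tr' _ _ _ (s (Quotient.mk (orb α) y)) h
    rw [hdd y, ← h2, hdd x] at this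
    exact this
  refine ⟨Equiv.ofBijective T (Finite.injective_iff_bijective.1 hT), ?_, ?_⟩
  · intro d ω
    show T (α d ω) = β d (T ω)
    have h1 : Quotient.mk (orb α) (α d ω) = Quotient.mk (orb α) ω :=
      (Quotient.sound (s := orb α) (⟨d, rfl⟩ : ∃ d', α d' ω = α d ω)).symm
    simp only [T]
    rw [h1, ← Equiv.Perm.mul_apply, ← map_mul]
    apply tr _ _ (s (Quotient.mk (orb α) ω))
    rw [map_mul, Equiv.Perm.mul_apply, hdd ω]
    have := hdd (α d ω)
    rw [h1] at this
    exact this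
  · intro i
    show T (p i) = q i
    simp only [T]
    rw [hσ, hsq]
    have := hdd (p i)
    rw [hsp] at this
    exact (hβ _ _).2 ((hα _ _).1 this)

theorem ext_perm {D Ω I : Type} [Group D] [Finite Ω] [Finite I] (α β : D →* Equiv.Perm Ω)
    (K : D → Prop) (hα : ∀ d ω, α d ω = ω ↔ K d) (hβ : ∀ d ω, β d ω = ω ↔ K d)
    (p q : I → Ω) (hp : ∀ i j d, α d (p i) = p j → i = j)
    (hq : ∀ i j d, β d (q i) = q j → i = j) :
    ∃ T : Equiv.Perm Ω, (∀ d ω, T (α d ω) = β d (T ω)) ∧ ∀ i, T (p i) = q i := by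
  rcases le_total (Nat.card (Quotient (orb α))) (Nat.card (Quotient (orb β))) with h | h
  · exact ext_inj α β K hα hβ p q hp hq h
  · obtain ⟨T, h1, h2⟩ := ext_inj β α K hβ hα q p hq hp h
    refine ⟨T⁻¹, fun d ω => ?_, fun i => ?_⟩
    · apply T.injective
      rw [h1]; simp
    · rw [← h2 i]; simp

end H471Z.Dif
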