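import Pool.Agent.H471Z.Dif.W
set_option autoImplicit false
set_option linter.unusedSectionVars false

namespace H471Z.Dif

open Finsupp Filter

/-- parity character. -/
def χ0 : ℤ →+* ZMod 2 := Int.castRingHom (ZMod 2)

/-- the infinite base group. -/
abbrev W0 := W ℤ ℤ χ0

/-- finite cyclic ring. -/
abbrev Zq (M : ℕ) := ZMod (2 * (M + 1))

instance (M : ℕ) : NeZero (2 * (M + 1)) := ⟨by omega⟩

/-- parity character of the finite ring. -/
def χq (M : ℕ) : Zq M →+* ZMod 2 := ZMod.castHom (dvd_mul_right 2 (M + 1)) (ZMod 2)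

/-- reduction of integers. -/
def cq (M : ℕ) : ℤ →+ Zq M := Int.castAddHom (Zq M)

theorem χq_cq (M : ℕ) (c : ℤ) : χq M (cq M c) = χ0 c := by
  simp [χq, cq, χ0]

/-- the finite quotients. -/
noncomputable def q (M : ℕ) : W0 →* W (Zq M) (Zq M) (χq M) := W.map (cq M) (cq M) (χq_cq M)

@[simp] theorem q_n (M : ℕ) (x : W0) : (q M x).n = red (rV (cq M)) (cq M) x.n := rfl
@[simp] theorem q_f (M : ℕ) (x : W0) : (q M x).f = red (rV (cq M)) (cq M) x.f := rfl
@[simp] theorem q_a (M : ℕ) (x : W0) : (q M x).a = red (cq M) (cq M) x.a := rfl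
@[simp] theorem q_k (M : ℕ) (x : W0) : (q M x).k = cq M x.k := rfl

theorem q_P (M : ℕ) (x : W0) : (q M x).P = rV (cq M) x.P := by
  simp [W.P, psi_red _ _ (χq_cq M), bar_red _ _ (χq_cq M)]

theorem q_eq_one (M : ℕ) (x : W0) : q M x = 1 ↔ red (rV (cq M)) (cq M) x.n = 0 ∧
    red (rV (cq M)) (cq M) x.f = 0 ∧ red (cq M) (cq M) x.a = 0 ∧ cq M x.k = 0 := by
  constructor
  · intro h
    exact ⟨congrArg W.n h, congrArg W.f h, congrArg W.a h, congrArg W.k h⟩
  · rintro ⟨h1, h2, h3, h4⟩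
    exact W.ext h1 h2 h3 h4

theorem ev_k (k : ℤ) (hk : k ≠ 0) : ∀ᶠ M in atTop, cq M k ≠ 0 := by
  rw [eventually_atTop]
  refine ⟨k.natAbs, fun M hM h => hk ?_⟩
  have h' : ((k : ℤ) : ZMod (2 * (M + 1))) = 0 := h
  rw [ZMod.intCast_zmod_eq_zero_iff_dvd] at h'
  refine Int.eq_zero_of_abs_lt_dvd h' ?_
  rw [Int.abs_eq_natAbs]
  have : k.natAbs < 2 * (M + 1) := by omega
  exact_mod_cast this

theorem ev_inj {X : Type} [AddCommGroup X] {Y : ℕ → Type} [∀ M, AddCommGroup (Y M)]
    (g : ∀ M, X →+ Y M) (hg : ∀ x, x ≠ 0 → ∀ᶠ M in atTop, g M x ≠ 0) (S : Finset X) :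
    ∀ᶠ M in atTop, Set.InjOn (g M) S := by
  have : ∀ᶠ M in atTop, ∀ p ∈ S ×ˢ S, p.1 ≠ p.2 → g M (p.1 - p.2) ≠ 0 := by
    rw [eventually_all_finset]
    intro p _
    by_cases h : p.1 = p.2
    · exact Eventually.of_forall (fun M h' => absurd h h')
    · exact (hg _ (sub_ne_zero.2 h)).mono (fun M h' _ => h')
  refine this.mono (fun M h x hx y hy hxy => ?_)
  by_contra hne
  exact h (x, y) (Finset.mem_product.2 ⟨hx, hy⟩) hne (by simp [hxy])

theorem red_apply {X X' M M' : Type} [AddCommGroup M] [AddCommGroup M'] (g : X → X')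
    (h : M →+ M') (r : X →₀ M) (hg : Set.InjOn g r.support) (x : X) (hx : x ∈ r.support) :
    red g h r (g x) = h (r x) := by
  simp only [red, AddMonoidHom.comp_apply, Finsupp.mapRange.addMonoidHom_apply,
    Finsupp.mapDomain.addMonoidHom_apply, Finsupp.mapRange_apply]
  rw [Finsupp.mapDomain_apply' (r.support : Set X) r subset_rfl hg hx]

theorem ev_V (v : V ℤ) (hv : v ≠ 0) : ∀ᶠ M in atTop, rV (cq M) v ≠ 0 := by
  obtain ⟨i, hi⟩ := Finsupp.support_nonempty_iff.2 hv
  refine (ev_inj cq ev_k v.support).mono (fun M h h' => ?_)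
  have := red_apply (cq M) (AddMonoidHom.id _) v h i hi
  rw [show red (cq M) (AddMonoidHom.id _) v = rV (cq M) v from rfl, h'] at this
  exact Finsupp.mem_support_iff.1 hi this.symm

theorem lim_k (k : ℤ) (h : ∀ M, cq M k = 0) : k = 0 := by
  by_contra hk
  obtain ⟨M, hM⟩ := (ev_k k hk).exists
  exact hM (h M)

theorem lim_V (v : V ℤ) (h : ∀ M, rV (cq M) v = 0) : v = 0 := by
  by_contra hk
  obtain ⟨M, hM⟩ := (ev_V v hk).exists
  exact hM (h M)

theorem lim_T (a : ℤ →₀ ℤ) (h : ∀ M, red (cq M) (cq M) a = 0) : a = 0 := by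
  by_contra ha
  obtain ⟨i, hi⟩ := Finsupp.support_nonempty_iff.2 ha
  obtain ⟨M, h1, h2⟩ := ((ev_inj cq ev_k a.support).and
    (ev_k _ (Finsupp.mem_support_iff.1 hi))).exists
  have := red_apply (cq M) (cq M) a h1 i hi
  rw [h M] at this
  exact h2 this.symm

theorem lim_R (r : V ℤ →₀ ℤ) (h : ∀ M, red (rV (cq M)) (cq M) r = 0) : r = 0 := by
  by_contra ha
  obtain ⟨i, hi⟩ := Finsupp.support_nonempty_iff.2 ha
  obtain ⟨M, h1, h2⟩ := ((ev_inj (fun M => rV (cq M)) ev_V r.support).and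
    (ev_k _ (Finsupp.mem_support_iff.1 hi))).exists
  have := red_apply (rV (cq M)) (cq M) r h1 i hi
  rw [h M] at this
  exact h2 this.symm

theorem even_of_forall {X : Type} (r : X →₀ ℤ) (h : ∀ x, χ0 (r x) = 0) : Even r := by
  refine ⟨Finsupp.mapRange (fun c => c / 2) (by simp) r, ?_⟩
  ext x
  have h2 : ((r x : ℤ) : ZMod 2) = 0 := h x
  rw [ZMod.intCast_zmod_eq_zero_iff_dvd] at h2
  simp only [Finsupp.coe_add, Pi.add_apply, Finsupp.mapRange_apply]
  push_cast at h2
  omega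

theorem lim_even (r : V ℤ →₀ ℤ) (h : ∀ M, Even (red (rV (cq M)) (cq M) r)) : Even r := by
  apply even_of_forall
  intro x
  by_cases hx : x ∈ r.support
  · obtain ⟨M, h1⟩ := (ev_inj (fun M => rV (cq M)) ev_V r.support).exists
    have := red_apply (rV (cq M)) (cq M) r h1 x hx
    obtain ⟨g, hg⟩ := h M
    rw [hg] at this
    rw [← χq_cq M, ← this]
    simp only [Finsupp.coe_add, Pi.add_apply, map_add]
    generalize χq M _ = c
    revert c
    decide
  · rw [Finsupp.notMem_support_iff.1 hx, map_zero]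

theorem lim_W (x : W0) (h : ∀ M, q M x = 1) : x = 1 :=
  W.ext (lim_R _ (fun M => ((q_eq_one M x).1 (h M)).1))
    (lim_R _ (fun M => ((q_eq_one M x).1 (h M)).2.1))
    (lim_T _ (fun M => ((q_eq_one M x).1 (h M)).2.2.1))
    (lim_k _ (fun M => ((q_eq_one M x).1 (h M)).2.2.2))

theorem psi_even {Z K : Type} [AddCommGroup Z] [CommRing K] (χ : K →+* ZMod 2) (r : V Z →₀ K)
    (h : Even r) : psi χ r = 0 := by
  obtain ⟨g, rfl⟩ := h
  rw [map_add, V_add_self]

theorem W0_tf (x : W0) (hx : x ≠ 1) : ¬ IsOfFinOrder x := by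
  intro h
  obtain ⟨m, hm, hp⟩ := isOfFinOrder_iff_pow_eq_one.1 h
  have hm' : m ≠ 0 := by omega
  have h1 : ∀ j : ℕ, (x ^ j).k = j • x.k := by
    intro j
    induction j with
    | zero => simp
    | succ j ih => rw [pow_succ', W.mul_k, ih, succ_nsmul']
  have hk : x.k = 0 := by
    have := h1 m
    rw [hp] at this
    exact (smul_eq_zero_iff_right hm').1 this.symm
  have h2 : ∀ j : ℕ, (x ^ j).a = j • x.a := by
    intro j
    induction j with
    | zero => simp
    | succ j ih => rw [pow_succ', W.mul_a, ih, succ_nsmul', hk, sh_zero]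
  have ha : x.a = 0 := by
    have := h2 m
    rw [hp] at this
    exact (smul_eq_zero_iff_right hm').1 this.symm
  have h3 : ∀ j : ℕ, (x ^ j).f = j • x.f := by
    intro j
    induction j with
    | zero => simp
    | succ j ih => rw [pow_succ', W.mul_f, ih, succ_nsmul', hk, ha, map_zero, act_zero]
  have hf : x.f = 0 := by
    have := h3 m
    rw [hp] at this
    exact (smul_eq_zero_iff_right hm').1 this.symm
  have h4 : ∀ j : ℕ, (x ^ j).n = j • x.n := by
    intro j
    induction j with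
    | zero => simp
    | succ j ih =>
      rw [pow_succ', W.mul_n, ih, succ_nsmul', hk, W.P, ha, hf, map_zero, map_zero, add_zero,
        act_zero]
  have hn : x.n = 0 := by
    have := h4 m
    rw [hp] at this
    exact (smul_eq_zero_iff_right hm').1 this.symm
  exact hx (W.ext hn hf ha hk)

end H471Z.Dif
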