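import Pool.Agent.H471Z.Dif.Fin
set_option autoImplicit false
set_option linter.unusedSectionVars false

namespace H471Z.Dif

open Finsupp

theorem fs_ind {X : Type} (P : (X →₀ ℤ) → Prop) (h0 : P 0) (hadd : ∀ r s, P r → P s → P (r + s))
    (hneg : ∀ r, P r → P (-r)) (hs : ∀ x, P (single x 1)) (r : X →₀ ℤ) : P r := by
  induction r using Finsupp.induction_linear with
  | zero => exact h0
  | add f g hf hg => exact hadd f g hf hg
  | single x c =>
    induction c using Int.induction_on with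
    | zero => simpa using h0
    | succ i ih => rw [Finsupp.single_add]; exact hadd _ _ ih (hs x)
    | pred i ih =>
      rw [sub_eq_add_neg, Finsupp.single_add, Finsupp.single_neg (b := (1 : ℤ))]
      exact hadd _ _ ih (hneg _ (hs x))

/-- the basic lamp. -/
noncomputable def a0 : V ℤ := single 0 1

/-- the generator of the augmentation ideal. -/
noncomputable def x0 : V ℤ →₀ ℤ := single a0 1 - single 0 1

theorem eps_x0 : eps x0 = 0 := by simp [x0]

theorem psi_x0 : psi χ0 x0 = a0 := by simp [x0]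

theorem I_ind (P : (V ℤ →₀ ℤ) → Prop) (h0 : P 0)
    (hadd : ∀ r s, eps r = 0 → eps s = 0 → P r → P s → P (r + s))
    (hneg : ∀ r, eps r = 0 → P r → P (-r)) (hx : P x0)
    (hinv : ∀ w k r, eps r = 0 → P r → P (act w k r)) (f : V ℤ →₀ ℤ) (hf : eps f = 0) : P f := by
  have h1 : ∀ v : V ℤ, P (single v 1 - single 0 1) := by
    intro v
    induction v using Finsupp.induction_linear with
    | zero => simpa using h0
    | add v w hv hw =>
      have : (single (v + w) 1 - single 0 1 : V ℤ →₀ ℤ) =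
          act v 0 (single w 1 - single 0 1) + (single v 1 - single 0 1) := by simp
      rw [this]
      exact hadd _ _ (by simp) (by simp) (hinv _ _ _ (by simp) hw) hv
    | single i c =>
      have hc : c = 0 ∨ c = 1 := by revert c; decide
      rcases hc with rfl | rfl
      · simpa using h0
      · have := hinv 0 i x0 eps_x0 hx
        simpa [x0, a0] using this
  have h2 : ∀ f : V ℤ →₀ ℤ, P (f - single 0 (eps f)) := by
    intro f
    induction f using fs_ind with
    | h0 => simpa using h0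
    | hadd r s hr hs =>
      have : r + s - single 0 (eps (r + s)) = (r - single 0 (eps r)) + (s - single 0 (eps s)) := by
        rw [map_add, Finsupp.single_add]; abel
      rw [this]
      exact hadd _ _ (by simp) (by simp) hr hs
    | hneg r hr =>
      have : -r - single 0 (eps (-r)) = -(r - single 0 (eps r)) := by
        rw [map_neg, Finsupp.single_neg]; abel
      rw [this]
      exact hneg _ (by simp) hr
    | hs x => simpa using h1 x
  simpa [hf] using h2 f

/-- a lift of a vector mod two. -/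
noncomputable def lf (v : V ℤ) : ℤ →₀ ℤ := Finsupp.mapRange (fun c => (c.val : ℤ)) (by simp) v

theorem bar_apply (a : ℤ →₀ ℤ) (i : ℤ) : bar χ0 a i = χ0 (a i) := by
  simp [bar, red]

theorem bar_lf (v : V ℤ) : bar χ0 (lf v) = v := by
  ext i
  rw [bar_apply]
  simp [lf, χ0]

theorem even_of_bar (a : ℤ →₀ ℤ) (h : bar χ0 a = 0) : Even a :=
  even_of_forall a (fun x => by rw [← bar_apply, h]; rfl)

/-- embedding of the group ring. -/
def iN (r : V ℤ →₀ ℤ) : W0 := ⟨r, 0, 0, 0, by simp⟩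
/-- embedding of the acting ideal. -/
def iF (f : V ℤ →₀ ℤ) (hf : eps f = 0) : W0 := ⟨0, f, 0, 0, hf⟩
/-- embedding of the integral lamps. -/
def iA (a : ℤ →₀ ℤ) : W0 := ⟨0, 0, a, 0, by simp⟩
/-- embedding of the shifts. -/
def iK (k : ℤ) : W0 := ⟨0, 0, 0, k, by simp⟩

/-- generators -/
noncomputable def ga : W0 := iA (single 0 1)
/-- generators -/
def gt : W0 := iK 1
/-- generators -/
noncomputable def gm : W0 := iF x0 eps_x0
/-- generators -/
noncomputable def gn : W0 := iN (single 0 1)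

theorem decomp (x : W0) : x = iN x.n * iF x.f x.hf * iA x.a * iK x.k := by
  ext1 <;> simp [iN, iF, iA, iK]

theorem iK_add (k k' : ℤ) : iK (k + k') = iK k * iK k' := by ext1 <;> simp [iK]
theorem iK_neg (k : ℤ) : iK (-k) = (iK k)⁻¹ := by ext1 <;> simp [iK]
theorem iA_add (a a' : ℤ →₀ ℤ) : iA (a + a') = iA a * iA a' := by ext1 <;> simp [iA]
theorem iA_neg (a : ℤ →₀ ℤ) : iA (-a) = (iA a)⁻¹ := by ext1 <;> simp [iA]
theorem iN_add (a a' : V ℤ →₀ ℤ) : iN (a + a') = iN a * iN a' := by ext1 <;> simp [iN, W.P]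
theorem iN_neg (a : V ℤ →₀ ℤ) : iN (-a) = (iN a)⁻¹ := by ext1 <;> simp [iN, W.P]
theorem iF_add (a a' : V ℤ →₀ ℤ) (h : eps a = 0) (h' : eps a' = 0) (h'' : eps (a + a') = 0) :
    iF (a + a') h'' = iF a h * iF a' h' := by ext1 <;> simp [iF]
theorem iF_neg (a : V ℤ →₀ ℤ) (h : eps a = 0) (h' : eps (-a) = 0) :
    iF (-a) h' = (iF a h)⁻¹ := by ext1 <;> simp [iF]

theorem iK_eq (k : ℤ) : iK k = gt ^ k := by
  induction k using Int.induction_on with
  | zero => rfl
  | succ i ih => rw [iK_add, ih, zpow_add_one]; rfl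
  | pred i ih => rw [sub_eq_add_neg, iK_add, ih, iK_neg, zpow_add, zpow_neg_one]; rfl

theorem conj_iA (k : ℤ) (a : ℤ →₀ ℤ) : iK k * iA a * (iK k)⁻¹ = iA (sh k a) := by
  ext1 <;> simp [iA, iK]

theorem conj_iN (x : W0) (r : V ℤ →₀ ℤ) : x * iN r * x⁻¹ = iN (act x.P x.k r) := by
  rw [mul_inv_eq_iff_eq_mul]
  ext1 <;> simp [iN, W.P, add_comm]

theorem conj_iF (a : ℤ →₀ ℤ) (k : ℤ) (f : V ℤ →₀ ℤ) (hf : eps f = 0)
    (hf' : eps (act (bar χ0 a) k f) = 0) :
    (iA a * iK k) * iF f hf * (iA a * iK k)⁻¹ = iF (act (bar χ0 a) k f) hf' := by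
  rw [mul_inv_eq_iff_eq_mul]
  ext1 <;> simp [iF, iA, iK]

theorem gen_A (K : Subgroup W0) (ha : ga ∈ K) (ht : ∀ k, ∀ x ∈ K, iK k * x * (iK k)⁻¹ ∈ K)
    (a : ℤ →₀ ℤ) : iA a ∈ K := by
  induction a using fs_ind with
  | h0 => exact K.one_mem
  | hadd r s hr hs => rw [iA_add]; exact K.mul_mem hr hs
  | hneg r hr => rw [iA_neg]; exact K.inv_mem hr
  | hs i =>
    have := ht i _ ha
    rw [ga, conj_iA] at this
    simpa using this

theorem gen_E (K : Subgroup W0) (ha : ga ∈ K) (ht : gt ∈ K) (hm : gm ∈ K) (x : W0)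
    (hx : x.n = 0) : x ∈ K := by
  have hK : ∀ k, iK k ∈ K := fun k => by rw [iK_eq]; exact K.zpow_mem ht k
  have hA : ∀ a, iA a ∈ K :=
    gen_A K ha (fun k x hx => K.mul_mem (K.mul_mem (hK k) hx) (K.inv_mem (hK k)))
  have hF : ∀ f, eps f = 0 → ∀ hf, iF f hf ∈ K := by
    apply I_ind
    · intro _; exact K.one_mem
    · intro r s hr hs h1 h2 h
      rw [iF_add r s hr hs]; exact K.mul_mem (h1 _) (h2 _)
    · intro r hr h1 h
      rw [iF_neg r hr]; exact K.inv_mem (h1 _)
    · intro _; exact hm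
    · intro w k r hr h1 h
      have h2 := conj_iF (lf w) k r hr (by simpa using hr)
      have h3 : iA (lf w) * iK k ∈ K := K.mul_mem (hA _) (hK _)
      have h4 := K.mul_mem (K.mul_mem h3 (h1 hr)) (K.inv_mem h3)
      rw [h2] at h4
      simpa [bar_lf] using h4
  rw [decomp x, hx]
  exact K.mul_mem (K.mul_mem (K.mul_mem K.one_mem (hF _ x.hf _)) (hA _)) (hK _)

theorem gen_N (K : Subgroup W0) (hn : gn ∈ K)
    (he : ∀ e : W0, e.n = 0 → ∀ x ∈ K, e * x * e⁻¹ ∈ K) (r : V ℤ →₀ ℤ) : iN r ∈ K := by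
  induction r using fs_ind with
  | h0 => exact K.one_mem
  | hadd r s hr hs => rw [iN_add]; exact K.mul_mem hr hs
  | hneg r hr => rw [iN_neg]; exact K.inv_mem hr
  | hs v =>
    have := he (iA (lf v)) rfl _ hn
    rw [gn, conj_iN] at this
    simpa [iA, W.P, bar_lf] using this

/-- the retraction killing the group ring. -/
def ρ (x : W0) : W0 := ⟨0, x.f, x.a, x.k, x.hf⟩

theorem iN_ρ (x : W0) : iN x.n * ρ x = x := by ext1 <;> simp [iN, ρ]

theorem gen_W (K : Subgroup W0) (ha : ga ∈ K) (ht : gt ∈ K) (hm : gm ∈ K) (hn : gn ∈ K)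
    (x : W0) : x ∈ K := by
  have hE := gen_E K ha ht hm
  rw [← iN_ρ x]
  exact K.mul_mem (gen_N K hn (fun e he x hx =>
    K.mul_mem (K.mul_mem (hE e he) hx) (K.inv_mem (hE e he))) _) (hE _ rfl)

theorem gen_ker (K : Subgroup W0) (ha : ga * ga ∈ K) (hm : ga⁻¹ * gm ∈ K) (hn : gn ∈ K)
    (he : ∀ e : W0, e.n = 0 → ∀ x ∈ K, e * x * e⁻¹ ∈ K) (x : W0) (hP : x.P = 0) (hk : x.k = 0) :
    x ∈ K := by
  have hN := gen_N K hn he
  have hA2 : ∀ g, iA (g + g) ∈ K := by
    intro g
    induction g using fs_ind with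
    | h0 => rw [add_zero]; exact K.one_mem
    | hadd r s hr hs =>
      rw [show r + s + (r + s) = (r + r) + (s + s) by abel, iA_add]; exact K.mul_mem hr hs
    | hneg r hr => rw [← neg_add, iA_neg]; exact K.inv_mem hr
    | hs i =>
      have := he (iK i) rfl _ ha
      rw [ga, ← iA_add, conj_iA] at this
      simpa using this
  have hA : ∀ b, bar χ0 b = 0 → iA b ∈ K := by
    intro b hb
    obtain ⟨g, rfl⟩ := even_of_bar b hb
    exact hA2 g
  have hF : ∀ f, eps f = 0 → ∀ hf, ∃ b, bar χ0 b = psi χ0 f ∧ iF f hf * (iA b)⁻¹ ∈ K := by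
    apply I_ind
    · intro _; exact ⟨0, by simp, K.mul_mem K.one_mem (K.inv_mem K.one_mem)⟩
    · intro r s hr hs h1 h2 h
      obtain ⟨b, hb, hb'⟩ := h1 hr
      obtain ⟨c, hc, hc'⟩ := h2 hs
      refine ⟨b + c, by simp [hb, hc], ?_⟩
      have := K.mul_mem (he (iF r hr) rfl _ hc') hb'
      rw [iF_add r s hr hs, iA_add]
      convert this using 1
      group
    · intro r hr h1 h
      obtain ⟨b, hb, hb'⟩ := h1 hr
      refine ⟨-b, by simp [hb], ?_⟩
      have := he (iF r hr)⁻¹ (by simp [iF]) _ (K.inv_mem hb')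
      rw [iF_neg r hr, iA_neg]
      convert this using 1
      group
    · intro _
      refine ⟨single 0 1, by simp [psi_x0, a0], ?_⟩
      have := he ga rfl _ hm
      convert this using 1
      simp only [ga, gm]
      group
    · intro w k r hr h1 h
      obtain ⟨b, hb, hb'⟩ := h1 hr
      refine ⟨sh k b, by simp [bar_sh, psi_act, hb, hr], ?_⟩
      have := he (iA (lf w) * iK k) (by simp [iA, iK]) _ hb'
      have h2 := conj_iF (lf w) k r hr (by simpa using hr)
      simp only [bar_lf] at h2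
      rw [← h2, ← conj_iA]
      convert this using 1
      have h3 : iA (lf w) * (iK k * iA b * (iK k)⁻¹) = (iK k * iA b * (iK k)⁻¹) * iA (lf w) := by
        rw [conj_iA, ← iA_add, ← iA_add, add_comm]
      have h4 : (iK k * iA b * (iK k)⁻¹)⁻¹ =
          iA (lf w) * (iK k * iA b * (iK k)⁻¹)⁻¹ * (iA (lf w))⁻¹ := by
        have := (Commute.inv_right (show Commute _ _ from h3)).eq
        rw [this]; group
      rw [h4]
      group
  obtain ⟨b, hb, hb'⟩ := hF x.f x.hf x.hf
  have h5 : iA (b + x.a) ∈ K := hA _ (by rw [map_add, hb]; exact hP)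
  rw [decomp x, hk]
  have := K.mul_mem (K.mul_mem (hN x.n) hb') h5
  convert this using 1
  rw [iA_add, show iK 0 = 1 from rfl]
  group

end H471Z.Dif
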