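import Pool.Agent.H471Z.Dif.Step
set_option autoImplicit false

namespace H471Z.Dif

open HNNExtension

/-- admissible subgroups: normal, finite index, compatible with all letters. -/
def Adm {B ι : Type} [Group B] (Δ : ι → Subgroup (B × B)) (U : Subgroup B) : Prop :=
  U.Normal ∧ U.FiniteIndex ∧ ∀ i, ∀ p ∈ Δ i, (p.1 ∈ U ↔ p.2 ∈ U)

theorem fam_adm {B ι : Type} [Group B] (Δ : ι → Subgroup (B × B)) : Fam (Adm Δ) where
  normal _ h := h.1
  fin _ h := h.2.1
  top := ⟨inferInstance, inferInstance, by simp⟩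
  inf U V hU hV := ⟨by have := hU.1; have := hV.1; infer_instance,
    by have := hU.2.1; have := hV.2.1; infer_instance, by
      intro i p hp
      simp only [Subgroup.mem_inf, hU.2.2 i p hp, hV.2.2 i p hp]⟩

theorem fam_lift {B G : Type} [Group B] [Group G] {N : Subgroup B → Prop} (hN : Fam N)
    (j : B →* G) : Fam (fun U : Subgroup G => U.Normal ∧ U.FiniteIndex ∧ N (U.comap j)) where
  normal _ h := h.1
  fin _ h := h.2.1
  top := ⟨inferInstance, inferInstance, by simpa using hN.top⟩
  inf U V hU hV := ⟨by have := hU.1; have := hV.1; infer_instance,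
    by have := hU.2.1; have := hV.2.1; infer_instance, by
      rw [Subgroup.comap_inf]; exact hN.inf _ _ hU.2.2 hV.2.2⟩

/-- The invariant of the tower of extensions. -/
structure Tower {B ι : Type} [Group B] (Δ : ι → Subgroup (B × B)) (s : Finset ι)
    (G : Type) [Group G] (j : B →* G) (t : ι → G) : Prop where
  inj : Function.Injective j
  tf : ∀ g : G, g ≠ 1 → ¬ IsOfFinOrder g
  cl : ∀ S : Set B, Cl (Adm Δ) S →
    Cl (fun U : Subgroup G => U.Normal ∧ U.FiniteIndex ∧ Adm Δ (U.comap j)) (j '' S)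
  rel : ∀ i ∈ s, ∀ p ∈ Δ i, t i * j p.1 = j p.2 * t i
  gen : ∀ K : Subgroup G, (∀ b, j b ∈ K) → (∀ i ∈ s, t i ∈ K) → K = ⊤
  univ : ∀ (H : Type) [Group H] (f : B →* H) (x : ι → H),
    (∀ i ∈ s, ∀ p ∈ Δ i, x i * f p.1 = f p.2 * x i) →
      ∃ F : G →* H, (∀ b, F (j b) = f b) ∧ ∀ i ∈ s, F (t i) = x i

theorem exists_tower {B ι : Type} [Group B] (Δ : ι → Subgroup (B × B))
    (tf : ∀ g : B, g ≠ 1 → ¬ IsOfFinOrder g)
    (h1 : Cl (Adm Δ) {1})
    (hA : ∀ i, Cl (Adm Δ) (Prod.fst '' (Δ i : Set (B × B))))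
    (hB : ∀ i, Cl (Adm Δ) (Prod.snd '' (Δ i : Set (B × B)))) (s : Finset ι) :
    ∃ (G : Type) (_ : Group G) (j : B →* G) (t : ι → G), Tower Δ s G j t := by
  classical
  induction s using Finset.induction_on with
  | empty =>
    refine ⟨B, inferInstance, MonoidHom.id B, fun _ => 1, ⟨fun _ _ h => h, tf, ?_, by simp, ?_, ?_⟩⟩
    · intro S hS g hg
      obtain ⟨U, hU, h⟩ := hS g (by simpa using hg)
      exact ⟨U, ⟨hU.1, hU.2.1, by simpa using hU⟩, by simpa using h⟩
    · intro K hK _
      rw [eq_top_iff]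
      intro b _
      exact hK b
    · intro H _ f x _
      exact ⟨f, fun _ => rfl, by simp⟩
  | insert i s hi ih =>
    obtain ⟨G, _, j, t, T⟩ := ih
    let α : Δ i →* G := j.comp ((MonoidHom.fst B B).comp (Δ i).subtype)
    let β : Δ i →* G := j.comp ((MonoidHom.snd B B).comp (Δ i).subtype)
    have hsep : ∀ p ∈ Δ i, p.1 = 1 ↔ p.2 = 1 := by
      intro p hp
      constructor
      · intro h
        by_contra h'
        obtain ⟨U, hU, h2⟩ := h1 p.2 h'
        have := (hU.2.2 i p hp).1 (by rw [h]; exact U.one_mem)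
        exact h2 _ (U.inv_mem this) (by simp)
      · intro h
        by_contra h'
        obtain ⟨U, hU, h2⟩ := h1 p.1 h'
        have := (hU.2.2 i p hp).2 (by rw [h]; exact U.one_mem)
        exact h2 _ (U.inv_mem this) (by simp)
    have hα : Function.Injective α := by
      rw [injective_iff_map_eq_one]
      intro p hp
      have h : p.1.1 = 1 := T.inj (by simpa [α] using hp)
      exact Subtype.ext (Prod.ext h ((hsep p.1 p.2).1 h))
    have hβ : Function.Injective β := by
      rw [injective_iff_map_eq_one]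
      intro p hp
      have h : p.1.2 = 1 := T.inj (by simpa [β] using hp)
      exact Subtype.ext (Prod.ext ((hsep p.1 p.2).2 h) h)
    let φ : α.range ≃* β.range := (MonoidHom.ofInjective hα).symm.trans (MonoidHom.ofInjective hβ)
    have hφ : ∀ p : Δ i, (φ ⟨α p, ⟨p, rfl⟩⟩ : G) = β p := by
      intro p
      have : (⟨α p, ⟨p, rfl⟩⟩ : α.range) = MonoidHom.ofInjective hα p := rfl
      simp only [φ, MulEquiv.trans_apply]
      rw [this, MulEquiv.symm_apply_apply]
      rfl
    have hFam := fam_lift (fam_adm Δ) j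
    have hAα : (α.range : Set G) = j '' (Prod.fst '' (Δ i : Set (B × B))) := by
      ext g
      constructor
      · rintro ⟨p, rfl⟩
        exact ⟨p.1.1, ⟨p.1, p.2, rfl⟩, rfl⟩
      · rintro ⟨_, ⟨p, hp, rfl⟩, rfl⟩
        exact ⟨⟨p, hp⟩, rfl⟩
    have hBβ : (β.range : Set G) = j '' (Prod.snd '' (Δ i : Set (B × B))) := by
      ext g
      constructor
      · rintro ⟨p, rfl⟩
        exact ⟨p.1.2, ⟨p.1, p.2, rfl⟩, rfl⟩
      · rintro ⟨_, ⟨p, hp, rfl⟩, rfl⟩
        exact ⟨⟨p, hp⟩, rfl⟩
    refine ⟨HNNExtension G α.range β.range φ, inferInstance, HNNExtension.of.comp j,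
      Function.update (fun k => HNNExtension.of (t k)) i HNNExtension.t, ?_, ?_, ?_, ?_, ?_, ?_⟩
    · exact (HNNExtension.of_injective (φ := φ)).comp T.inj
    · exact Pool.CS.hnn_tf φ T.tf
    · intro S hS
      have := step_cl hFam φ (by
          rintro U hU ⟨_, p, rfl⟩
          rw [hφ p]
          exact hU.2.2.2.2 i p.1 p.2)
        (by rw [hAα]; exact T.cl _ (hA i)) (by rw [hBβ]; exact T.cl _ (hB i)) (T.cl S hS)
      intro g hg
      obtain ⟨U, hU, h⟩ := this g (by simpa [Set.image_image] using hg)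
      exact ⟨U, ⟨hU.1, hU.2.1, hU.2.2.2.2⟩, by simpa [Set.image_image] using h⟩
    · intro k hk p hp
      rcases Finset.mem_insert.1 hk with rfl | hk'
      · rw [Function.update_self]
        have := t_mul_of (φ := φ) ⟨α ⟨p, hp⟩, ⟨_, rfl⟩⟩
        rw [hφ] at this
        exact this
      · have hne : k ≠ i := fun h => hi (h ▸ hk')
        rw [Function.update_of_ne hne]
        simp only [MonoidHom.comp_apply]
        rw [← map_mul, ← map_mul, T.rel k hk' p hp]
    · intro K hK ht
      have h2 : K.comap HNNExtension.of = ⊤ := by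
        apply T.gen _ hK
        intro k hk
        have hne : k ≠ i := fun h => hi (h ▸ hk)
        have := ht k (Finset.mem_insert_of_mem hk)
        rwa [Function.update_of_ne hne] at this
      have h3 := ht i (Finset.mem_insert_self _ _)
      rw [Function.update_self] at h3
      rw [eq_top_iff]
      intro g _
      induction g using HNNExtension.induction_on with
      | of g => exact (h2 ▸ Subgroup.mem_top g : g ∈ K.comap HNNExtension.of)
      | t => exact h3
      | mul x y hx hy => exact K.mul_mem (hx trivial) (hy trivial)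
      | inv x hx => exact K.inv_mem (hx trivial)
    · intro H _ f x hx
      obtain ⟨F, hF, hFt⟩ := T.univ H f x (fun k hk => hx k (Finset.mem_insert_of_mem hk))
      refine ⟨HNNExtension.lift F (x i) ?_, ?_, ?_⟩
      · rintro ⟨_, p, rfl⟩
        rw [hφ p]
        simp only [α, β, MonoidHom.comp_apply, hF]
        exact hx i (Finset.mem_insert_self _ _) p.1 p.2
      · intro b
        simp [hF]
      · intro k hk
        rcases Finset.mem_insert.1 hk with rfl | hk'
        · simp
        · have hne : k ≠ i := fun h => hi (h ▸ hk')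
          rw [Function.update_of_ne hne]
          simp [hFt k hk']

theorem Tower.rf {B ι : Type} [Group B] {Δ : ι → Subgroup (B × B)} {s : Finset ι}
    {G : Type} [Group G] {j : B →* G} {t : ι → G} (T : Tower Δ s G j t)
    (h1 : Cl (Adm Δ) {1}) (g : G) (hg : g ≠ 1) :
    ∃ N : Subgroup G, N.Normal ∧ N.FiniteIndex ∧ g ∉ N := by
  obtain ⟨U, hU, h⟩ := T.cl _ h1 g (by simpa using hg)
  refine ⟨U, hU.1, hU.2.1, fun hm => h _ (U.inv_mem hm) ?_⟩
  simp

end H471Z.Dif
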