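import Pool.Agent.H471Z.Dif.Fin
import Pool.Agent.H471Z.Dif.Multi
set_option autoImplicit false
set_option linter.unusedSectionVars false

namespace H471Z.Dif

/-- the base of the tower. -/
abbrev B0 := W0 × W0

/-- transport letter between the two factors. -/
def Dτ : Subgroup (B0 × B0) where
  carrier := {p | p.1.2 = 1 ∧ p.2.1 = 1 ∧ p.2.2 = p.1.1}
  one_mem' := ⟨rfl, rfl, rfl⟩
  mul_mem' := by
    rintro p p' ⟨h1, h2, h3⟩ ⟨h1', h2', h3'⟩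
    simp [h1, h2, h3, h1', h2', h3']
  inv_mem' := by
    rintro p ⟨h1, h2, h3⟩
    simp [h1, h2, h3]

/-- commutation letter for the group ring. -/
def Dz : Subgroup (B0 × B0) where
  carrier := {p | p.1.1.P = p.1.2.P ∧ p.1.1.k = p.1.2.k ∧ p.2.2 = p.1.2 ∧
    p.2.1.n = p.1.1.n + p.1.2.n ∧ p.2.1.f = p.1.1.f ∧ p.2.1.a = p.1.1.a ∧ p.2.1.k = p.1.1.k}
  one_mem' := by simp
  mul_mem' := by
    rintro p p' ⟨h1, h2, h3, h4, h5, h6, h7⟩ ⟨h1', h2', h3', h4', h5', h6', h7'⟩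
    have hP : p.2.1.P = p.1.1.P := by simp [W.P, h5, h6]
    simp [h1, h2, h3, h4, h5, h6, h7, h1', h2', h3', h4', h5', h6', h7', hP]
    abel
  inv_mem' := by
    rintro p ⟨h1, h2, h3, h4, h5, h6, h7⟩
    have hP : p.2.1.P = p.1.1.P := by simp [W.P, h5, h6]
    simp [h1, h2, h3, h4, h5, h6, h7, hP]
    abel

/-- commutation letter for the integral wreath product. -/
def D0 : Subgroup (B0 × B0) where
  carrier := {p | p.1.1.n = 0 ∧ p.1.1.f = 0 ∧ p.1.2.n = 0 ∧ p.1.2.f = 0 ∧ p.1.1.k = p.1.2.k ∧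
    p.2.2 = p.1.2 ∧ p.2.1.n = 0 ∧ p.2.1.f = 0 ∧ p.2.1.a = p.1.1.a + p.1.2.a ∧ p.2.1.k = p.1.1.k}
  one_mem' := by simp
  mul_mem' := by
    rintro p p' ⟨h1, h2, h3, h4, h5, h6, h7, h8, h9, h10⟩
      ⟨h1', h2', h3', h4', h5', h6', h7', h8', h9', h10'⟩
    simp [h1, h2, h3, h4, h5, h6, h7, h8, h9, h10, h1', h2', h3', h4', h5', h6', h7', h8', h9',
      h10']
    abel
  inv_mem' := by
    rintro p ⟨h1, h2, h3, h4, h5, h6, h7, h8, h9, h10⟩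
    simp [h1, h2, h3, h4, h5, h6, h7, h8, h9, h10]
    abel

/-- letter moving the acting ideal into the group ring. -/
def Dσ : Subgroup (B0 × B0) where
  carrier := {p | p.1.2 = 1 ∧ p.2.2 = 1 ∧ p.1.1.n = 0 ∧ p.2.1.n = p.1.1.f ∧ p.2.1.f = 0 ∧
    p.2.1.a = p.1.1.a ∧ p.2.1.k = p.1.1.k}
  one_mem' := by simp
  mul_mem' := by
    rintro p p' ⟨h1, h2, h3, h4, h5, h6, h7⟩ ⟨h1', h2', h3', h4', h5', h6', h7'⟩
    simp [h1, h2, h3, h4, h5, h6, h7, h1', h2', h3', h4', h5', h6', h7', W.P]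
  inv_mem' := by
    rintro p ⟨h1, h2, h3, h4, h5, h6, h7⟩
    simp [h1, h2, h3, h4, h5, h6, h7, W.P]

theorem even_act (w : V ℤ) (k : ℤ) (r : V ℤ →₀ ℤ) (h : Even r) : Even (act w k r) := by
  obtain ⟨g, rfl⟩ := h
  exact ⟨act w k g, map_add _ _ _⟩

/-- the swapping letter. -/
def Dθ : Subgroup (B0 × B0) where
  carrier := {p | p.1.2 = 1 ∧ p.2.2 = 1 ∧ Even p.1.1.n ∧ Even p.1.1.f ∧ p.2.1.n = p.1.1.f ∧
    p.2.1.f = p.1.1.n ∧ p.2.1.a = p.1.1.a ∧ p.2.1.k = p.1.1.k}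
  one_mem' := by simp
  mul_mem' := by
    rintro p p' ⟨h1, h2, h3, h4, h5, h6, h7, h8⟩ ⟨h1', h2', h3', h4', h5', h6', h7', h8'⟩
    have e1 := psi_even χ0 _ h3
    have e2 := psi_even χ0 _ h4
    refine ⟨by simp [h1, h1'], by simp [h2, h2'], h3.add (even_act _ _ _ h3'),
      h4.add (even_act _ _ _ h4'), ?_⟩
    simp [h5, h6, h7, h8, h5', h6', h7', h8', W.P, e1, e2]
  inv_mem' := by
    rintro p ⟨h1, h2, h3, h4, h5, h6, h7, h8⟩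
    have e1 := psi_even χ0 _ h3
    have e2 := psi_even χ0 _ h4
    refine ⟨by simp [h1], by simp [h2], (even_act _ _ _ h3).neg, (even_act _ _ _ h4).neg, ?_⟩
    simp [h5, h6, h7, h8, W.P, e1, e2]

/-- the five letters. -/
def Δ : Fin 5 → Subgroup (B0 × B0) := ![Dτ, Dz, D0, Dσ, Dθ]

/-- the congruence subgroups of the base. -/
noncomputable def UU (M : ℕ) : Subgroup B0 := ((q M).prodMap (q M)).ker

theorem mem_UU (M : ℕ) (x : B0) : x ∈ UU M ↔ q M x.1 = 1 ∧ q M x.2 = 1 := by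
  simp [UU, MonoidHom.mem_ker, Prod.ext_iff]

theorem adm_UU (M : ℕ) : Adm Δ (UU M) := by
  refine ⟨by unfold UU; infer_instance, by unfold UU; infer_instance, ?_⟩
  intro i p hp
  simp only [mem_UU]
  fin_cases i
  · obtain ⟨h1, h2, h3⟩ := hp
    simp [h1, h2, h3]
  · obtain ⟨h1, h2, h3, h4, h5, h6, h7⟩ := hp
    simp only [q_eq_one, h3, h4, h5, h6, h7, map_add]
    constructor
    · rintro ⟨⟨a1, a2, a3, a4⟩, b1, b2, b3, b4⟩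
      simp [a1, a2, a3, a4, b1, b2, b3, b4]
    · rintro ⟨⟨a1, a2, a3, a4⟩, b1, b2, b3, b4⟩
      rw [b1, add_zero] at a1
      simp [a1, a2, a3, a4, b1, b2, b3, b4]
  · obtain ⟨h1, h2, h3, h4, h5, h6, h7, h8, h9, h10⟩ := hp
    simp only [q_eq_one, h1, h2, h3, h4, h6, h7, h8, h9, h10, map_add]
    constructor
    · rintro ⟨⟨a1, a2, a3, a4⟩, b1, b2, b3, b4⟩
      simp [a3, a4, b3, b4]
    · rintro ⟨⟨a1, a2, a3, a4⟩, b1, b2, b3, b4⟩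
      rw [b3, add_zero] at a3
      simp [a3, a4, b3, b4]
  · obtain ⟨h1, h2, h3, h4, h5, h6, h7⟩ := hp
    simp [q_eq_one, h1, h2, h3, h4, h5, h6, h7]
  · obtain ⟨h1, h2, h3, h4, h5, h6, h7, h8⟩ := hp
    simp only [q_eq_one, h1, h2, h5, h6, h7, h8]
    tauto

theorem cl_of (S : Set B0)
    (h : ∀ g : B0, (∀ M, ∃ s ∈ S, q M g.1 = q M s.1 ∧ q M g.2 = q M s.2) → g ∈ S) :
    Cl (Adm Δ) S := by
  intro g hg
  by_contra hc
  push Not at hc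
  apply hg
  apply h
  intro M
  obtain ⟨u, hu, hgu⟩ := hc _ (adm_UU M)
  rw [mem_UU] at hu
  exact ⟨g * u, hgu, by simp [hu.1], by simp [hu.2]⟩

theorem cl_one : Cl (Adm Δ) {1} := by
  apply cl_of
  intro g h
  refine Prod.ext (lim_W _ (fun M => ?_)) (lim_W _ (fun M => ?_))
  · obtain ⟨s, rfl, h1, h2⟩ := h M
    simpa using h1
  · obtain ⟨s, rfl, h1, h2⟩ := h M
    simpa using h2

theorem lim_P (x y : W0) (h : ∀ M, (q M x).P = (q M y).P) : x.P = y.P := by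
  rw [← sub_eq_zero]
  apply lim_V
  intro M
  rw [map_sub, ← q_P, ← q_P, h M, sub_self]

theorem lim_kk (x y : W0) (h : ∀ M, (q M x).k = (q M y).k) : x.k = y.k := by
  rw [← sub_eq_zero]
  apply lim_k
  intro M
  rw [map_sub, ← q_k, ← q_k, h M, sub_self]

theorem even_red (M : ℕ) (r : V ℤ →₀ ℤ) (h : Even r) : Even (red (rV (cq M)) (cq M) r) := by
  obtain ⟨g, rfl⟩ := h
  exact ⟨_, map_add _ _ _⟩

theorem cl_fst (i : Fin 5) : Cl (Adm Δ) (Prod.fst '' (Δ i : Set (B0 × B0))) := by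
  apply cl_of
  intro g h
  fin_cases i
  · refine ⟨(g, (1, g.1)), ⟨lim_W _ (fun M => ?_), rfl, rfl⟩, rfl⟩
    obtain ⟨_, ⟨p, ⟨h1, h2, h3⟩, rfl⟩, e1, e2⟩ := h M
    rw [e2, h1, map_one]
  · refine ⟨(g, (⟨g.1.n + g.2.n, g.1.f, g.1.a, g.1.k, g.1.hf⟩, g.2)),
      ⟨lim_P _ _ (fun M => ?_), lim_kk _ _ (fun M => ?_), rfl, rfl, rfl, rfl, rfl⟩, rfl⟩
    · obtain ⟨_, ⟨p, ⟨h1, h2, -⟩, rfl⟩, e1, e2⟩ := h M
      rw [e1, e2, q_P, q_P, h1]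
    · obtain ⟨_, ⟨p, ⟨h1, h2, -⟩, rfl⟩, e1, e2⟩ := h M
      rw [e1, e2, q_k, q_k, h2]
  · refine ⟨(g, (⟨0, 0, g.1.a + g.2.a, g.1.k, by simp⟩, g.2)),
      ⟨lim_R _ (fun M => ?_), lim_R _ (fun M => ?_), lim_R _ (fun M => ?_),
        lim_R _ (fun M => ?_), lim_kk _ _ (fun M => ?_), rfl, rfl, rfl, rfl, rfl⟩, rfl⟩
    all_goals obtain ⟨_, ⟨p, ⟨h1, h2, h3, h4, h5, -⟩, rfl⟩, e1, e2⟩ := h M
    · rw [← q_n, e1, q_n, h1, map_zero]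
    · rw [← q_f, e1, q_f, h2, map_zero]
    · rw [← q_n, e2, q_n, h3, map_zero]
    · rw [← q_f, e2, q_f, h4, map_zero]
    · rw [e1, e2, q_k, q_k, h5]
  · refine ⟨(g, (⟨g.1.f, 0, g.1.a, g.1.k, by simp⟩, 1)),
      ⟨lim_W _ (fun M => ?_), rfl, lim_R _ (fun M => ?_), rfl, rfl, rfl, rfl⟩, rfl⟩
    all_goals obtain ⟨_, ⟨p, ⟨h1, h2, h3, -⟩, rfl⟩, e1, e2⟩ := h M
    · rw [e2, h1, map_one]
    · rw [← q_n, e1, q_n, h3, map_zero]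
  · have he : eps g.1.n = 0 := by
      apply lim_k
      intro M
      obtain ⟨_, ⟨p, ⟨h1, h2, h3, h4, h5, h6, -⟩, rfl⟩, e1, e2⟩ := h M
      rw [← eps_red (cq M), ← q_n, e1, q_n, eps_red, ← h6, p.2.1.hf, map_zero]
    refine ⟨(g, (⟨g.1.f, g.1.n, g.1.a, g.1.k, he⟩, 1)),
      ⟨lim_W _ (fun M => ?_), rfl, lim_even _ (fun M => ?_), lim_even _ (fun M => ?_),
        rfl, rfl, rfl, rfl⟩, rfl⟩
    all_goals obtain ⟨_, ⟨p, ⟨h1, h2, h3, h4, -⟩, rfl⟩, e1, e2⟩ := h M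
    · rw [e2, h1, map_one]
    · rw [← q_n, e1, q_n]; exact even_red _ _ h3
    · rw [← q_f, e1, q_f]; exact even_red _ _ h4

theorem cl_snd (i : Fin 5) : Cl (Adm Δ) (Prod.snd '' (Δ i : Set (B0 × B0))) := by
  apply cl_of
  intro g h
  fin_cases i
  · refine ⟨((g.2, 1), g), ⟨rfl, lim_W _ (fun M => ?_), rfl⟩, rfl⟩
    obtain ⟨_, ⟨p, ⟨h1, h2, h3⟩, rfl⟩, e1, e2⟩ := h M
    rw [e1, h2, map_one]
  · refine ⟨((⟨g.1.n - g.2.n, g.1.f, g.1.a, g.1.k, g.1.hf⟩, g.2), g),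
      ⟨lim_P g.1 g.2 (fun M => ?_), lim_kk g.1 g.2 (fun M => ?_), rfl, by simp, rfl, rfl, rfl⟩,
      rfl⟩
    all_goals obtain ⟨_, ⟨p, ⟨h1, h2, h3, h4, h5, h6, h7⟩, rfl⟩, e1, e2⟩ := h M
    · rw [e1, e2, q_P, q_P, h3, ← h1, W.P, h5, h6, W.P]
    · rw [e1, e2, q_k, q_k, h3, h7, h2]
  · refine ⟨((⟨0, 0, g.1.a - g.2.a, g.1.k, by simp⟩, g.2), g),
      ⟨rfl, rfl, lim_R _ (fun M => ?_), lim_R _ (fun M => ?_), lim_kk g.1 g.2 (fun M => ?_), rfl,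
        lim_R _ (fun M => ?_), lim_R _ (fun M => ?_), by simp, rfl⟩, rfl⟩
    all_goals obtain ⟨_, ⟨p, ⟨h1, h2, h3, h4, h5, h6, h7, h8, h9, h10⟩, rfl⟩, e1, e2⟩ := h M
    · rw [← q_n, e2, q_n, h6, h3, map_zero]
    · rw [← q_f, e2, q_f, h6, h4, map_zero]
    · rw [e1, e2, q_k, q_k, h6, h10, h5]
    · rw [← q_n, e1, q_n, h7, map_zero]
    · rw [← q_f, e1, q_f, h8, map_zero]
  · have he : eps g.1.n = 0 := by
      apply lim_k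
      intro M
      obtain ⟨_, ⟨p, ⟨h1, h2, h3, h4, -⟩, rfl⟩, e1, e2⟩ := h M
      rw [← eps_red (cq M), ← q_n, e1, q_n, eps_red, h4, p.1.1.hf, map_zero]
    refine ⟨((⟨0, g.1.n, g.1.a, g.1.k, he⟩, 1), g),
      ⟨rfl, lim_W _ (fun M => ?_), rfl, rfl, lim_R _ (fun M => ?_), rfl, rfl⟩, rfl⟩
    all_goals obtain ⟨_, ⟨p, ⟨h1, h2, h3, h4, h5, -⟩, rfl⟩, e1, e2⟩ := h M
    · rw [e2, h2, map_one]
    · rw [← q_f, e1, q_f, h5, map_zero]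
  · have he : eps g.1.n = 0 := by
      apply lim_k
      intro M
      obtain ⟨_, ⟨p, ⟨h1, h2, h3, h4, h5, h6, -⟩, rfl⟩, e1, e2⟩ := h M
      rw [← eps_red (cq M), ← q_n, e1, q_n, eps_red, h5, p.1.1.hf, map_zero]
    refine ⟨((⟨g.1.f, g.1.n, g.1.a, g.1.k, he⟩, 1), g),
      ⟨rfl, lim_W _ (fun M => ?_), lim_even _ (fun M => ?_), lim_even _ (fun M => ?_),
        rfl, rfl, rfl, rfl⟩, rfl⟩
    all_goals obtain ⟨_, ⟨p, ⟨h1, h2, h3, h4, h5, h6, -⟩, rfl⟩, e1, e2⟩ := h M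
    · rw [e2, h2, map_one]
    · rw [← q_f, e1, q_f, h6]; exact even_red _ _ h3
    · rw [← q_n, e1, q_n, h5]; exact even_red _ _ h4

theorem B0_tf (g : B0) (hg : g ≠ 1) : ¬ IsOfFinOrder g := by
  intro h
  apply hg
  refine Prod.ext ?_ ?_
  · by_contra h1
    exact W0_tf _ h1 ((MonoidHom.fst W0 W0).isOfFinOrder h)
  · by_contra h1
    exact W0_tf _ h1 ((MonoidHom.snd W0 W0).isOfFinOrder h)

theorem exists_G : ∃ (G : Type) (_ : Group G) (j : B0 →* G) (t : Fin 5 → G),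
    Tower Δ Finset.univ G j t :=
  exists_tower Δ B0_tf cl_one cl_fst cl_snd _

end H471Z.Dif
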