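import Mathlib
set_option autoImplicit false
set_option linter.unusedSectionVars false

namespace H471Z.Dif

/-- normal forms in the Promislow group. -/
structure PP where
  i : ℤ
  j : ℤ
  k : ℤ
  a : Bool
  b : Bool
  deriving DecidableEq

namespace PP

/-- left multiplication by the first generator. -/
def uM (x : PP) : PP :=
  if x.a then ⟨x.i + 1, -x.j, -x.k, false, x.b⟩ else ⟨x.i, -x.j, -x.k, true, x.b⟩

/-- left multiplication by the second generator. -/
def wM (x : PP) : PP :=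
  if x.a then (if x.b then ⟨-x.i - 1, x.j, -x.k - 1, true, false⟩
    else ⟨-x.i - 1, x.j + 1, -x.k - 1, true, true⟩)
  else (if x.b then ⟨-x.i, x.j + 1, -x.k, false, false⟩ else ⟨-x.i, x.j, -x.k, false, true⟩)

/-- translation. -/
def tr (i j k : ℤ) (y : PP) : PP := ⟨i + y.i, j + y.j, k + y.k, y.a, y.b⟩

/-- multiplication. -/
def mul (x y : PP) : PP :=
  tr x.i x.j x.k (if x.a then uM (if x.b then wM y else y) else (if x.b then wM y else y))

/-- the ravel with its certificate. -/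
def cert : List (PP × PP × PP) :=
  [(⟨-1, -1, 0, false, true⟩, ⟨-2, 0, 0, true, true⟩, ⟨-1, 0, -1, true, false⟩),
   (⟨-1, 0, -1, true, false⟩, ⟨-1, 0, -1, false, true⟩, ⟨-1, 0, -1, true, true⟩),
   (⟨-1, 0, -1, true, true⟩, ⟨0, -1, -1, true, false⟩, ⟨-1, -1, 0, false, true⟩),
   (⟨-1, 0, 0, true, false⟩, ⟨-1, 0, 0, false, true⟩, ⟨-1, 0, -1, true, true⟩),
   (⟨-1, 1, -1, true, true⟩, ⟨0, 0, -1, true, false⟩, ⟨-1, -1, 0, false, true⟩),
   (⟨0, -1, 0, false, true⟩, ⟨-1, 0, 0, true, true⟩, ⟨-1, 0, -1, true, false⟩)]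

theorem cert_ok : ∀ c ∈ cert, c.2.1 ≠ ⟨0, 0, 0, false, false⟩ ∧ mul c.2.1 c.2.2 = c.1 ∧
    c.2.2 ∈ cert.map Prod.fst ∧ mul c.2.1 c.1 ∈ cert.map Prod.fst := by decide

end PP

section
variable {G : Type} [Group G]

/-- translations -/
def TT (u w : G) (i j k : ℤ) : G := (u * u) ^ i * (w * w) ^ j * (u * w * (u * w)) ^ k

/-- evaluation of a normal form -/
def ev (u w : G) (x : PP) : G :=
  TT u w x.i x.j x.k * (if x.a then u else 1) * (if x.b then w else 1)

variable {u w : G} (hu : u * (w * w) * u⁻¹ = (w * w)⁻¹) (hw : w * (u * u) * w⁻¹ = (u * u)⁻¹)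
include hu hw

theorem uC : u * (u * w * (u * w)) * u⁻¹ = (u * w * (u * w))⁻¹ := by
  have h1 : u * (w * w) = (w * w)⁻¹ * u := by rw [← hu]; group
  have h2 : w⁻¹ * (u * u) = (u * u)⁻¹ * w⁻¹ := by
    have : u * u = w * (u * u)⁻¹ * w⁻¹ := by
      have := congrArg (·⁻¹) hw
      simp only [inv_inv] at this
      conv_lhs => rw [← this]
      group
    conv_lhs => rw [this]
    group
  have h3 : (u * w * (u * w)) * (w * u * (w * u)) = 1 := by
    calc _ = u * w * (u * (w * w)) * u * w * u := by group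
      _ = u * (w⁻¹ * (u * u)) * w * u := by rw [h1]; group
      _ = 1 := by rw [h2]; group
  have h4 : w * u * (w * u) = (u * w * (u * w))⁻¹ := by
    rw [eq_inv_iff_mul_eq_one]
    exact mul_eq_one_comm.1 h3
  have h5 : u⁻¹ * (u * w * (u * w)) * u = (u * w * (u * w))⁻¹ := by rw [← h4]; group
  have h6 := congrArg (fun x => u * x⁻¹ * u⁻¹) h5
  simp only [inv_inv] at h6
  rw [← h6]
  group

theorem wC : w * (u * w * (u * w)) * w⁻¹ = (u * w * (u * w))⁻¹ := by
  have h := uC hu hw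
  have h6 := congrArg (fun x => u⁻¹ * x⁻¹ * u) h
  simp only [inv_inv] at h6
  calc _ = u⁻¹ * (u * w * (u * w)) * u := by group
    _ = _ := by rw [← h6]; group

theorem c12 : Commute (u * u) (w * w) := by
  have h1 : u * (w * w) = (w * w)⁻¹ * u := by rw [← hu]; group
  have h2 : u * (w * w)⁻¹ = (w * w) * u := by
    have := congrArg (·⁻¹) hu
    simp only [inv_inv] at this
    conv_rhs => rw [← this]
    group
  show u * u * (w * w) = w * w * (u * u)
  rw [mul_assoc, h1, ← mul_assoc, h2, mul_assoc]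

omit hu hw in
theorem sq_comm {x c : G} (h : x * c * x⁻¹ = c⁻¹) : Commute (x * x) c := by
  have h1 : x * c = c⁻¹ * x := by rw [← h]; group
  have h2 : x * c⁻¹ = c * x := by
    have := congrArg (·⁻¹) h
    simp only [inv_inv] at this
    conv_rhs => rw [← this]
    group
  show x * x * c = c * (x * x)
  rw [mul_assoc, h1, ← mul_assoc, h2, mul_assoc]

theorem TT_add (i j k i' j' k' : ℤ) :
    TT u w (i + i') (j + j') (k + k') = TT u w i j k * TT u w i' j' k' := by
  have c1 := c12 hu hw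
  have c2 := sq_comm (uC hu hw)
  have c3 := sq_comm (wC hu hw)
  simp only [TT, zpow_add]
  generalize u * w * (u * w) = C at c2 c3
  generalize u * u = U at c1 c2
  generalize w * w = W at c1 c3
  have e1 := (c1.zpow_zpow i' j).eq
  have e2 := (c2.zpow_zpow i' k).eq
  have e3 := (c3.zpow_zpow j' k).eq
  calc _ = U ^ i * (U ^ i' * W ^ j) * (W ^ j' * C ^ k) * C ^ k' := by group
    _ = U ^ i * W ^ j * (U ^ i' * C ^ k) * W ^ j' * C ^ k' := by rw [e1, e3]; group
    _ = _ := by rw [e2]; group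

theorem u_TT (i j k : ℤ) : u * TT u w i j k = TT u w i (-j) (-k) * u := by
  have h := uC hu hw
  have e1 : u * (u * u) ^ i * u⁻¹ = (u * u) ^ i := by rw [← conj_zpow]; congr 1; group
  have e2 : u * (w * w) ^ j * u⁻¹ = (w * w) ^ (-j) := by rw [← conj_zpow, hu, inv_zpow']
  have e3 : u * (u * w * (u * w)) ^ k * u⁻¹ = (u * w * (u * w)) ^ (-k) := by
    rw [← conj_zpow, h, inv_zpow']
  simp only [TT]
  rw [← e2, ← e3]
  conv_rhs => rw [← e1]
  simp only [mul_assoc, inv_mul_cancel_left, inv_mul_cancel, mul_one]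

theorem w_TT (i j k : ℤ) : w * TT u w i j k = TT u w (-i) j (-k) * w := by
  have h := wC hu hw
  have e1 : w * (u * u) ^ i * w⁻¹ = (u * u) ^ (-i) := by rw [← conj_zpow, hw, inv_zpow']
  have e2 : w * (w * w) ^ j * w⁻¹ = (w * w) ^ j := by rw [← conj_zpow]; congr 1; group
  have e3 : w * (u * w * (u * w)) ^ k * w⁻¹ = (u * w * (u * w)) ^ (-k) := by
    rw [← conj_zpow, h, inv_zpow']
  simp only [TT]
  rw [← e1, ← e3]
  conv_rhs => rw [← e2]
  simp only [mul_assoc, inv_mul_cancel_left, inv_mul_cancel, mul_one]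

theorem wu_eq : w * u = TT u w (-1) 1 (-1) * u * w := by
  have h1 := u_TT hu hw (-1) (-1) 1
  simp only [neg_neg] at h1
  rw [← h1]
  have c3 := (sq_comm (wC hu hw)).inv_left.eq
  have c2 := (sq_comm (uC hu hw)).inv_left.eq
  have h := uC hu hw
  simp only [TT, zpow_neg, zpow_one]
  rw [mul_assoc (u * u)⁻¹, c3]
  group

theorem ev_uM (x : PP) : ev u w (PP.uM x) = u * ev u w x := by
  obtain ⟨i, j, k, a, b⟩ := x
  cases a
  · simp only [ev, PP.uM, Bool.false_eq_true, if_false, if_true, mul_one]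
    rw [← mul_assoc, u_TT hu hw]
  · simp only [ev, PP.uM, Bool.false_eq_true, if_false, if_true, mul_one]
    rw [← mul_assoc, ← mul_assoc, u_TT hu hw]
    have := TT_add hu hw i (-j) (-k) 1 0 0
    simp only [add_zero] at this
    rw [this]
    simp [TT, mul_assoc]

theorem ev_wM (x : PP) : ev u w (PP.wM x) = w * ev u w x := by
  obtain ⟨i, j, k, a, b⟩ := x
  have h1 := TT_add hu hw (-i) j (-k) 0 1 0
  have h2 := TT_add hu hw (-i) j (-k) (-1) 1 (-1)
  have h3 := TT_add hu hw (-i + -1) (j + 1) (-k + -1) 0 (-1) 0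
  have h4 := u_TT hu hw 0 1 0
  simp only [add_zero, add_neg_cancel_right, neg_zero] at h1 h3 h4
  cases a <;> cases b <;>
    simp only [ev, PP.wM, Bool.false_eq_true, if_false, if_true, mul_one, sub_eq_add_neg]
  · rw [w_TT hu hw]
  · rw [← mul_assoc, w_TT hu hw, h1]
    simp [TT, mul_assoc]
  · rw [← mul_assoc, w_TT hu hw, h2, mul_assoc _ w u, wu_eq hu hw]
    simp only [mul_assoc]
  · rw [← mul_assoc, ← mul_assoc, w_TT hu hw, h3, h2, mul_assoc _ w u, wu_eq hu hw,
      mul_assoc _ _ u, ← h4]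
    simp [TT, mul_assoc]

theorem ev_mul (x y : PP) : ev u w (PP.mul x y) = ev u w x * ev u w y := by
  have h : ∀ (i j k : ℤ) (y : PP), ev u w (PP.tr i j k y) = TT u w i j k * ev u w y := by
    intro i j k y
    simp only [ev, PP.tr, TT_add hu hw, mul_assoc]
    rfl
  obtain ⟨i, j, k, a, b⟩ := x
  cases a <;> cases b <;>
    simp only [PP.mul, h, Bool.false_eq_true, if_false, if_true, ev_uM hu hw, ev_wM hu hw] <;>
    simp only [ev, Bool.false_eq_true, if_false, if_true, mul_one, mul_assoc]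

theorem TT_eq_one (tf : ∀ g : G, g ≠ 1 → ¬ IsOfFinOrder g) (hu1 : u ≠ 1) (i j k : ℤ)
    (h : TT u w i j k = 1) : i = 0 ∧ j = 0 ∧ k = 0 := by
  have key : ∀ (g : G) (n : ℤ), g ≠ 1 → g ^ n = 1 → n = 0 := by
    intro g n hg hn
    by_contra h0
    exact tf g hg (isOfFinOrder_iff_zpow_eq_one.2 ⟨n, h0, hn⟩)
  have sq : ∀ g : G, g ≠ 1 → g * g ≠ 1 := by
    intro g hg h
    have := key g 2 hg (by rw [zpow_two]; exact h)
    omega
  have hw1 : w ≠ 1 := by
    rintro rfl
    have : (u * u) * (u * u) = 1 := by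
      rw [one_mul, inv_one, mul_one] at hw
      conv_lhs => enter [1]; rw [hw]
      simp
    exact sq _ (sq _ hu1) this
  have huw : u * w ≠ 1 := by
    intro h
    have h1 : u = w⁻¹ := eq_inv_of_mul_eq_one_left h
    have : (w * w) * (w * w) = 1 := by
      have h2 : u * (w * w) * u⁻¹ = w * w := by rw [h1]; group
      rw [h2] at hu
      conv_lhs => enter [1]; rw [hu]
      simp
    exact sq _ (sq _ hw1) this
  have h1 : TT u w i (-j) (-k) = 1 := by
    have := u_TT hu hw i j k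
    rw [h, mul_one] at this
    exact right_eq_mul.1 this
  have h2 : TT u w (-i) j (-k) = 1 := by
    have := w_TT hu hw i j k
    rw [h, mul_one] at this
    exact right_eq_mul.1 this
  have h3 := TT_add hu hw i j k i (-j) (-k)
  have h4 := TT_add hu hw i j k (-i) j (-k)
  rw [h, h1] at h3
  rw [h, h2] at h4
  simp only [TT, add_neg_cancel, zpow_zero, mul_one, one_mul] at h3 h4
  have hi := key _ _ (sq _ hu1) h3
  have hj := key _ _ (sq _ hw1) h4
  have hi' : i = 0 := by omega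
  have hj' : j = 0 := by omega
  subst hi' hj'
  simp only [TT, zpow_zero, one_mul] at h
  exact ⟨rfl, rfl, key _ _ (sq _ huw) h⟩

theorem ev_ne_one (tf : ∀ g : G, g ≠ 1 → ¬ IsOfFinOrder g) (hu1 : u ≠ 1) (x : PP)
    (hx : x ≠ ⟨0, 0, 0, false, false⟩) : ev u w x ≠ 1 := by
  intro h
  have h2 := ev_mul hu hw x x
  rw [h, mul_one] at h2
  obtain ⟨i, j, k, a, b⟩ := x
  cases a <;> cases b
  · simp only [ev, Bool.false_eq_true, if_false, mul_one] at h
    obtain ⟨rfl, rfl, rfl⟩ := TT_eq_one hu hw tf hu1 _ _ _ h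
    exact hx rfl
  all_goals
    simp only [ev, PP.mul, PP.tr, PP.uM, PP.wM, Bool.false_eq_true, if_false, if_true,
      mul_one] at h2
    have := TT_eq_one hu hw tf hu1 _ _ _ h2
    omega

theorem exists_ravel (tf : ∀ g : G, g ≠ 1 → ¬ IsOfFinOrder g) (hu1 : u ≠ 1) (H : Subgroup G)
    (huH : u ∈ H) (hwH : w ∈ H) : ∃ A : Finset G, (∀ x ∈ A, x ∈ H) ∧ 2 ≤ A.card ∧
      ∀ a ∈ A, ∃ g ∈ H, g ≠ 1 ∧ g * a ∈ A ∧ g⁻¹ * a ∈ A := by
  classical
  have hH : ∀ x, ev u w x ∈ H := by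
    intro x
    have h1 := H.mul_mem huH hwH
    refine H.mul_mem (H.mul_mem (H.mul_mem (H.mul_mem (H.zpow_mem (H.mul_mem huH huH) _)
      (H.zpow_mem (H.mul_mem hwH hwH) _)) (H.zpow_mem (H.mul_mem h1 h1) _)) ?_) ?_
    · split_ifs
      exacts [huH, H.one_mem]
    · split_ifs
      exacts [hwH, H.one_mem]
  have hmem : ∀ x ∈ PP.cert.map Prod.fst,
      ev u w x ∈ ((PP.cert.map Prod.fst).map (ev u w)).toFinset :=
    fun x hx => List.mem_toFinset.2 (List.mem_map.2 ⟨x, hx, rfl⟩)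
  have main : ∀ a ∈ ((PP.cert.map Prod.fst).map (ev u w)).toFinset, ∃ g ∈ H, g ≠ 1 ∧
      g * a ∈ ((PP.cert.map Prod.fst).map (ev u w)).toFinset ∧
      g⁻¹ * a ∈ ((PP.cert.map Prod.fst).map (ev u w)).toFinset := by
    intro a ha
    obtain ⟨x, hx, rfl⟩ := List.mem_map.1 (List.mem_toFinset.1 ha)
    obtain ⟨c, hc, rfl⟩ := List.mem_map.1 hx
    obtain ⟨h1, h2, h3, h4⟩ := PP.cert_ok c hc
    refine ⟨ev u w c.2.1, hH _, ev_ne_one hu hw tf hu1 _ h1, ?_, ?_⟩
    · rw [← ev_mul hu hw]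
      exact hmem _ h4
    · rw [← h2, ev_mul hu hw, inv_mul_cancel_left]
      exact hmem _ h3
  refine ⟨_, ?_, ?_, main⟩
  · intro a ha
    obtain ⟨x, hx, rfl⟩ := List.mem_map.1 (List.mem_toFinset.1 ha)
    exact hH x
  · have h0 := hmem ⟨-1, -1, 0, false, true⟩ (by decide)
    obtain ⟨g, -, hg, h1, -⟩ := main _ h0
    refine Finset.one_lt_card.2 ⟨_, h0, _, h1, ?_⟩
    intro h
    exact hg (right_eq_mul.1 h)

end

end H471Z.Dif
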