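import Pool.Agent.H471Z.Dif.Pres
import Pool.Agent.H471Z.Dif.Prom
set_option autoImplicit false
set_option linter.unusedSectionVars false

namespace H471Z.Dif

open Finsupp

/-- the list of defining relations. -/
def relPairs {H : Type} [Group H] (x : Fin 9 → H) : List (H × H) :=
  [(x 0 * (x 4 * x 0 * (x 4)⁻¹),
     (x 4 * x 0 * (x 4)⁻¹) * x 0),
   (x 0 * (x 4 * x 1 * (x 4)⁻¹),
     (x 4 * x 1 * (x 4)⁻¹) * x 0),
   (x 0 * (x 4 * x 2 * (x 4)⁻¹),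
     (x 4 * x 2 * (x 4)⁻¹) * x 0),
   (x 0 * (x 4 * x 3 * (x 4)⁻¹),
     (x 4 * x 3 * (x 4)⁻¹) * x 0),
   (x 1 * (x 4 * x 0 * (x 4)⁻¹),
     (x 4 * x 0 * (x 4)⁻¹) * x 1),
   (x 1 * (x 4 * x 1 * (x 4)⁻¹),
     (x 4 * x 1 * (x 4)⁻¹) * x 1),
   (x 1 * (x 4 * x 2 * (x 4)⁻¹),
     (x 4 * x 2 * (x 4)⁻¹) * x 1),
   (x 1 * (x 4 * x 3 * (x 4)⁻¹),
     (x 4 * x 3 * (x 4)⁻¹) * x 1),
   (x 2 * (x 4 * x 0 * (x 4)⁻¹),
     (x 4 * x 0 * (x 4)⁻¹) * x 2),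
   (x 2 * (x 4 * x 1 * (x 4)⁻¹),
     (x 4 * x 1 * (x 4)⁻¹) * x 2),
   (x 2 * (x 4 * x 2 * (x 4)⁻¹),
     (x 4 * x 2 * (x 4)⁻¹) * x 2),
   (x 2 * (x 4 * x 3 * (x 4)⁻¹),
     (x 4 * x 3 * (x 4)⁻¹) * x 2),
   (x 3 * (x 4 * x 0 * (x 4)⁻¹),
     (x 4 * x 0 * (x 4)⁻¹) * x 3),
   (x 3 * (x 4 * x 1 * (x 4)⁻¹),
     (x 4 * x 1 * (x 4)⁻¹) * x 3),
   (x 3 * (x 4 * x 2 * (x 4)⁻¹),
     (x 4 * x 2 * (x 4)⁻¹) * x 3),
   (x 3 * (x 4 * x 3 * (x 4)⁻¹),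
     (x 4 * x 3 * (x 4)⁻¹) * x 3),
   (x 3 * x 1,
     x 1 * x 3),
   (x 5 * (x 0 * x 0),
     (x 0 * x 0) * x 5),
   (x 5 * ((x 0)⁻¹ * x 2),
     ((x 0)⁻¹ * x 2) * x 5),
   (x 5 * x 3,
     x 3 * x 5),
   (x 5 * (x 4 * x 3 * (x 4)⁻¹),
     x 3 * (x 4 * x 3 * (x 4)⁻¹) * x 5),
   (x 5 * (x 0 * (x 4 * x 0 * (x 4)⁻¹)),
     (x 0 * (x 4 * x 0 * (x 4)⁻¹)) * x 5),
   (x 5 * (x 1 * (x 4 * x 1 * (x 4)⁻¹)),
     (x 1 * (x 4 * x 1 * (x 4)⁻¹)) * x 5),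
   (x 5 * (x 2 * (x 4 * x 2 * (x 4)⁻¹)),
     (x 2 * (x 4 * x 2 * (x 4)⁻¹)) * x 5),
   (x 6 * x 0,
     x 0 * x 6),
   (x 6 * (x 4 * x 0 * (x 4)⁻¹),
     x 0 * (x 4 * x 0 * (x 4)⁻¹) * x 6),
   (x 6 * (x 1 * (x 4 * x 1 * (x 4)⁻¹)),
     (x 1 * (x 4 * x 1 * (x 4)⁻¹)) * x 6),
   (x 7 * x 0,
     x 0 * x 7),
   (x 7 * x 1,
     x 1 * x 7),
   (x 7 * x 2,
     (x 0 * x 3 * (x 0)⁻¹ * (x 3)⁻¹) * x 7),
   (x 8 * x 0,
     x 0 * x 8),
   (x 8 * x 1,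
     x 1 * x 8),
   (x 8 * (x 2 * x 2),
     (x 0 * x 3 * (x 0)⁻¹ * (x 3)⁻¹) * (x 0 * x 3 * (x 0)⁻¹ * (x 3)⁻¹) * x 8),
   (x 8 * ((x 0 * x 3 * (x 0)⁻¹ * (x 3)⁻¹) * (x 0 * x 3 * (x 0)⁻¹ * (x 3)⁻¹)),
     x 2 * x 2 * x 8)]

theorem relPairs_map {H H' : Type} [Group H] [Group H'] (F : H →* H') (x : Fin 9 → H) :
    (relPairs x).map (Prod.map F F) = relPairs (fun i => F (x i)) := by
  simp only [relPairs, List.map_cons, List.map_nil, Prod.map_apply, map_mul, map_inv]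

theorem rels_iff {H : Type} [Group H] (x : Fin 9 → H) : (∀ p ∈ relPairs x, p.1 = p.2) ↔
    Rels (x 0) (x 1) (x 2) (x 3) (x 4) (x 5) (x 6) (x 7) (x 8) := by
  simp only [relPairs, List.forall_mem_cons, List.not_mem_nil, false_imp_iff, implies_true,
    and_true]
  constructor
  · rintro ⟨c00, c01, c02, c03, c10, c11, c12, c13, c20, c21, c22, c23, c30, c31, c32, c33, nt, z1, z2, z3, z4, z5, z6, z7, y1, y2, y3, s1, s2, s3, t1, t2, t3, t4⟩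
    refine ⟨?_, nt, z1, z2, z3, z4, z5, z6, z7, y1, y2, y3, s1, s2, s3, t1, t2, t3, t4⟩
    rintro g (rfl | rfl | rfl | rfl) h (rfl | rfl | rfl | rfl)
    exacts [c00, c01, c02, c03, c10, c11, c12, c13, c20, c21, c22, c23, c30, c31, c32, c33]
  · intro R
    refine ⟨?_, ?_, ?_, ?_, ?_, ?_, ?_, ?_, ?_, ?_, ?_, ?_, ?_, ?_, ?_, ?_, R.nt, R.z1, R.z2, R.z3, R.z4, R.z5, R.z6, R.z7, R.y1, R.y2, R.y3, R.s1, R.s2, R.s3, R.t1, R.t2, R.t3, R.t4⟩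
    all_goals exact R.c _ (by simp) _ (by simp)

/-- the relators. -/
noncomputable def relators : Finset (FreeGroup (Fin 9)) :=
  ((relPairs FreeGroup.of).map (fun p => p.1 * p.2⁻¹)).toFinset

theorem lift_rel {H : Type} [Group H] (F : FreeGroup (Fin 9) →* H) :
    (∀ r ∈ (relators : Set (FreeGroup (Fin 9))), F r = 1) ↔
      ∀ p ∈ relPairs (fun i => F (FreeGroup.of i)), p.1 = p.2 := by
  rw [← relPairs_map]
  simp only [relators, List.coe_toFinset, List.mem_map, Set.mem_ofPred_eq,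
    forall_exists_index, and_imp, forall_apply_eq_imp_iff₂, map_mul, map_inv, Prod.map_fst,
    Prod.map_snd, mul_inv_eq_one]

section
variable {G : Type} [Group G] {j : B0 →* G} {t : Fin 5 → G}

theorem tau_conj (T : Tower Δ Finset.univ G j t) (y : W0) :
    t 0 * j (y, 1) * (t 0)⁻¹ = j (1, y) := by
  have := T.rel 0 (Finset.mem_univ _) ((y, 1), (1, y)) ⟨rfl, rfl, rfl⟩
  rw [this, mul_inv_cancel_right]

theorem j_mul (x y : W0) : j (x, 1) * j (1, y) = j (x, y) := by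
  rw [← map_mul]; simp

theorem j_mul1 (x y : W0) : j (x, 1) * j (y, 1) = j (x * y, 1) := by
  rw [← map_mul]; simp

theorem j_inv1 (x : W0) : (j (x, 1))⁻¹ = j (x⁻¹, 1) := by
  rw [← map_inv]; simp

theorem rels_G (T : Tower Δ Finset.univ G j t) :
    Rels (j (ga, 1)) (j (gt, 1)) (j (gm, 1)) (j (gn, 1)) (t 0) (t 1) (t 2) (t 3) (t 4) := by
  have hz := T.rel 1 (Finset.mem_univ _)
  have hy := T.rel 2 (Finset.mem_univ _)
  have hs := T.rel 3 (Finset.mem_univ _)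
  have ht := T.rel 4 (Finset.mem_univ _)
  have hx : j (ga, 1) * j (gn, 1) * (j (ga, 1))⁻¹ * (j (gn, 1))⁻¹ = j (iN x0, 1) := by
    rw [j_inv1, j_inv1, j_mul1, j_mul1, j_mul1, iN_x0]
  have z0 : ∀ x : W0, x.P = 0 → x.k = 0 → Commute (t 1) (j (x, 1)) := fun x h1 h2 =>
    hz ((x, 1), (x, 1)) ⟨by simpa using h1, h2, rfl, by simp, rfl, rfl, rfl⟩
  have z1 : ∀ x : W0, x.n = 0 → Commute (t 1) (j (x, 1) * (t 0 * j (x, 1) * (t 0)⁻¹)) := by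
    intro x h1
    rw [tau_conj T, j_mul]
    exact hz ((x, x), (x, x)) ⟨rfl, rfl, rfl, by simp [h1], rfl, rfl, rfl⟩
  have s0 : ∀ x : W0, x.n = 0 → x.f = 0 → Commute (t 3) (j (x, 1)) := fun x h1 h2 =>
    hs ((x, 1), (x, 1)) ⟨rfl, rfl, h1, by simp [h1, h2], h2, rfl, rfl⟩
  have t0 : ∀ x : W0, x.n = 0 → x.f = 0 → Commute (t 4) (j (x, 1)) := fun x h1 h2 =>
    ht ((x, 1), (x, 1)) ⟨rfl, rfl, by simp [h1], by simp [h2], by simp [h1, h2],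
      by simp [h1, h2], rfl, rfl⟩
  refine ⟨?_, ?_, ?_, ?_, z0 _ (by simp [gn, iN, W.P]) rfl, ?_, z1 _ rfl, z1 _ rfl, z1 _ rfl, ?_,
    ?_, ?_, s0 _ rfl rfl, s0 _ rfl rfl, ?_, t0 _ rfl rfl, t0 _ rfl rfl, ?_, ?_⟩
  · have : ∀ x y : W0, Commute (j (x, 1)) (t 0 * j (y, 1) * (t 0)⁻¹) := by
      intro x y
      rw [tau_conj T]
      exact Commute.map (by simp [Commute, SemiconjBy]) j
    rintro g (rfl | rfl | rfl | rfl) h (rfl | rfl | rfl | rfl) <;> exact this _ _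
  · show _ = _
    rw [j_mul1, j_mul1]
    congr 2
    ext1 <;> simp [gn, gt, iN, iK, W.P]
  · rw [j_mul1]
    exact z0 _ (by simp [ga, iA, W.P, V_add_self]) (by simp [ga, iA])
  · rw [j_inv1, j_mul1]
    exact z0 _ (by simp [ga, gm, iA, iF, W.P, psi_act, eps_x0, psi_x0, a0]) (by simp [ga, gm, iA, iF])
  · rw [tau_conj T, j_mul]
    exact hz ((1, gn), (gn, gn)) ⟨by simp [gn, iN, W.P], rfl, rfl, by simp, rfl, rfl, rfl⟩
  · exact hy ((ga, 1), (ga, 1)) ⟨rfl, rfl, rfl, rfl, rfl, rfl, rfl, rfl, by simp, rfl⟩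
  · rw [tau_conj T, j_mul]
    exact hy ((1, ga), (ga, ga)) ⟨rfl, rfl, rfl, rfl, rfl, rfl, rfl, rfl, by simp, rfl⟩
  · rw [tau_conj T, j_mul]
    exact hy ((gt, gt), (gt, gt)) ⟨rfl, rfl, rfl, rfl, rfl, rfl, rfl, rfl, by simp [gt, iK], rfl⟩
  · rw [hx]
    exact hs ((gm, 1), (iN x0, 1)) ⟨rfl, rfl, rfl, rfl, rfl, rfl, rfl⟩
  · rw [hx, j_mul1, j_mul1]
    refine ht ((gm * gm, 1), (iN x0 * iN x0, 1)) ⟨rfl, rfl, ?_, ?_, ?_, ?_, ?_, ?_⟩ <;>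
      simp [gm, iF, iN, W.P]
  · rw [hx, j_mul1, j_mul1]
    refine ht ((iN x0 * iN x0, 1), (gm * gm, 1)) ⟨rfl, rfl, ?_, ?_, ?_, ?_, ?_, ?_⟩ <;>
      simp [gm, iF, iN, W.P]

theorem fp_G (T : Tower Δ Finset.univ G j t) :
    Nonempty (G ≃* PresentedGroup (relators : Set (FreeGroup (Fin 9)))) := by
  let gens : Fin 9 → G :=
    ![j (ga, 1), j (gt, 1), j (gm, 1), j (gn, 1), t 0, t 1, t 2, t 3, t 4]
  have h1 : ∀ r ∈ (relators : Set (FreeGroup (Fin 9))), FreeGroup.lift gens r = 1 := by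
    rw [lift_rel, rels_iff]
    simp only [FreeGroup.lift_apply_of]
    exact rels_G T
  let toG : PresentedGroup (relators : Set (FreeGroup (Fin 9))) →* G := PresentedGroup.toGroup h1
  have htoG : ∀ i, toG (PresentedGroup.of i) = gens i := fun i => PresentedGroup.toGroup.of h1
  have h2 := (rels_iff _).1 ((lift_rel (PresentedGroup.mk (relators : Set (FreeGroup (Fin 9))))).1
    (fun r hr => PresentedGroup.one_of_mem hr))
  obtain ⟨f, fa, ft, fm, fn, hf⟩ := h2.exists_f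
  obtain ⟨F, hF, hFt⟩ := T.univ _ f _ (fun i _ => hf i)
  have hFg : ∀ i, F (gens i) = PresentedGroup.of i := by
    intro i
    fin_cases i
    · exact (hF _).trans fa
    · exact (hF _).trans ft
    · exact (hF _).trans fm
    · exact (hF _).trans fn
    · exact hFt 0 (Finset.mem_univ _)
    · exact hFt 1 (Finset.mem_univ _)
    · exact hFt 2 (Finset.mem_univ _)
    · exact hFt 3 (Finset.mem_univ _)
    · exact hFt 4 (Finset.mem_univ _)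
  refine ⟨MonoidHom.toMulEquiv F toG ?_ ?_⟩
  · let K := (toG.comp F).eqLocus (MonoidHom.id G)
    have hK : ∀ i, gens i ∈ K := by
      intro i
      show toG (F (gens i)) = gens i
      rw [hFg, htoG]
    have hW : ∀ x : W0, j (x, 1) ∈ K :=
      gen_W (K.comap (j.comp (MonoidHom.inl W0 W0))) (hK 0) (hK 1) (hK 2) (hK 3)
    have hT : K = ⊤ := by
      apply T.gen
      · rintro ⟨x, y⟩
        rw [← j_mul, ← tau_conj T]
        exact K.mul_mem (hW x) (K.mul_mem (K.mul_mem (hK 4) (hW y)) (K.inv_mem (hK 4)))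
      · intro i _
        fin_cases i
        exacts [hK 4, hK 5, hK 6, hK 7, hK 8]
    ext g
    exact (hT ▸ Subgroup.mem_top g : g ∈ K)
  · apply PresentedGroup.ext
    intro i
    simp only [MonoidHom.comp_apply, htoG, hFg, MonoidHom.id_apply]

theorem nondiffuse (T : Tower Δ Finset.univ G j t) (H : Subgroup G) [H.FiniteIndex] :
    ∃ A : Finset G, (∀ x ∈ A, x ∈ H) ∧ 2 ≤ A.card ∧
      ∀ a ∈ A, ∃ g ∈ H, g ≠ 1 ∧ g * a ∈ A ∧ g⁻¹ * a ∈ A := by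
  have ht := T.rel 4 (Finset.mem_univ _)
  let X : V ℤ → G := fun v => j (iF (single v 1 - single 0 1) (by simp), 1)
  obtain ⟨v, v', hne, hv⟩ := Finite.exists_ne_map_eq_of_infinite
    (fun v => (X v : G ⧸ H.normalCore))
  rw [QuotientGroup.eq] at hv
  have hβ : eps (single v' 1 - single v 1 : V ℤ →₀ ℤ) = 0 := by simp
  set β : V ℤ →₀ ℤ := single v' 1 - single v 1 with hβdef
  have hu : (X v)⁻¹ * X v' = j (iF β hβ, 1) := by
    simp only [X]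
    rw [j_inv1, j_mul1]
    congr 2
    ext1 <;> simp [iF, hβdef]
  rw [hu] at hv
  set u := j (iF β hβ, 1) with hudef
  have hββ : eps (β + β) = 0 := by simp [hβ]
  have e1 : u * u = j (iF (β + β) hββ, 1) := by rw [hudef, j_mul1, iF_add β β hβ hβ]
  have e2 : t 4 * j (iF (β + β) hββ, 1) * (t 4)⁻¹ = j (iN (β + β), 1) := by
    rw [mul_inv_eq_iff_eq_mul]
    exact ht ((iF (β + β) hββ, 1), (iN (β + β), 1))
      ⟨rfl, rfl, by simp [iF], ⟨β, rfl⟩, rfl, rfl, rfl, rfl⟩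
  have e3 : t 4 * j (iN (β + β), 1) * (t 4)⁻¹ = j (iF (β + β) hββ, 1) := by
    rw [mul_inv_eq_iff_eq_mul]
    exact ht ((iN (β + β), 1), (iF (β + β) hββ, 1))
      ⟨rfl, rfl, ⟨β, rfl⟩, by simp [iN], rfl, rfl, rfl, rfl⟩
  have e4 : u * j (iN (β + β), 1) * u⁻¹ = (j (iN (β + β), 1))⁻¹ := by
    rw [hudef, j_inv1, j_inv1, j_mul1, j_mul1, conj_iN, ← iN_neg]
    congr 3
    have hP : (iF β hβ).P = v' - v := by simp [iF, W.P, hβdef]
    have hk : (iF β hβ).k = 0 := rfl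
    have h5 : act (v' - v) 0 β = -β := by
      have h6 : v' - v + v' = v := by
        have := V_add_self v'
        have h7 := V_add_self v
        rw [show v' - v + v' = (v' + v') - (v + v) + v by abel, this, h7]; simp
      simp [hβdef, h6]
    rw [hP, hk, map_add, h5, neg_add]
  have e5 : (t 4 * u * (t 4)⁻¹) * (t 4 * u * (t 4)⁻¹) = j (iN (β + β), 1) := by
    rw [← e2, ← e1]; group
  refine exists_ravel (u := u) (w := t 4 * u * (t 4)⁻¹) ?_ ?_ T.tf ?_ H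
    (H.normalCore_le hv) (H.normalCore_le (Subgroup.Normal.conj_mem inferInstance _ hv _))
  · rw [e5, e4]
  · rw [e1, ← e3]
    calc _ = t 4 * (u * j (iN (β + β), 1) * u⁻¹) * (t 4)⁻¹ := by group
      _ = _ := by rw [e4]; group
  · intro h
    have h1 : (iF β hβ, (1 : W0)) = 1 := T.inj (by rw [map_one]; exact h)
    have h2 : β = 0 := congrArg (fun p : B0 => p.1.f) h1
    rw [hβdef, sub_eq_zero] at h2
    exact hne (Finsupp.single_left_injective one_ne_zero h2).symm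

end

end H471Z.Dif
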