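import Pool.Agent.H471Z.Dif.Univ
import Pool.Agent.H471Z.Dif.Letters
set_option autoImplicit false
set_option linter.unusedSectionVars false

namespace H471Z.Dif

open Finsupp

/-- pairs intertwined by an element. -/
def Qs {B H : Type} [Group B] [Group H] (f : B →* H) (x : H) : Subgroup (B × B) where
  carrier := {p | x * f p.1 = f p.2 * x}
  one_mem' := by simp
  mul_mem' := by
    intro p p' h h'
    simp only [Set.mem_ofPred_eq, Prod.fst_mul, Prod.snd_mul, map_mul] at h h' ⊢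
    rw [← mul_assoc, h, mul_assoc, h', mul_assoc]
  inv_mem' := by
    intro p h
    simp only [Set.mem_ofPred_eq, Prod.fst_inv, Prod.snd_inv, map_inv] at h ⊢
    rw [mul_inv_eq_iff_eq_mul, mul_assoc, h]
    group

theorem mem_Qs {B H : Type} [Group B] [Group H] (f : B →* H) (x : H) (p : B × B) :
    p ∈ Qs f x ↔ x * f p.1 = f p.2 * x := Iff.rfl

theorem Qmul {B : Type} [Group B] {Q : Subgroup (B × B)} {a b c d : B} (h1 : (a, b) ∈ Q)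
    (h2 : (c, d) ∈ Q) : (a * c, b * d) ∈ Q := Q.mul_mem h1 h2

theorem Qinv {B : Type} [Group B] {Q : Subgroup (B × B)} {a b : B} (h1 : (a, b) ∈ Q) :
    (a⁻¹, b⁻¹) ∈ Q := Q.inv_mem h1

/-- embeddings -/
noncomputable def h1 : W0 →* B0 × B0 := (MonoidHom.inl W0 W0).prod (MonoidHom.inl W0 W0)
/-- embeddings -/
noncomputable def h2 : W0 →* B0 × B0 :=
  (MonoidHom.inr W0 W0).prod ((MonoidHom.id W0).prod (MonoidHom.id W0))
/-- embeddings -/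
noncomputable def h3 : W0 →* B0 × B0 :=
  ((MonoidHom.id W0).prod (MonoidHom.id W0)).prod ((MonoidHom.id W0).prod (MonoidHom.id W0))

theorem h1_apply (w : W0) : h1 w = ((w, 1), (w, 1)) := rfl
theorem h2_apply (w : W0) : h2 w = ((1, w), (w, w)) := rfl
theorem h3_apply (w : W0) : h3 w = ((w, w), (w, w)) := rfl

theorem h31 (e w : W0) : h1 (e * w * e⁻¹) = h3 e * h1 w * (h3 e)⁻¹ := by
  simp [h1_apply, h3_apply]
theorem h32 (e w : W0) : h2 (e * w * e⁻¹) = h3 e * h2 w * (h3 e)⁻¹ := by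
  simp [h2_apply, h3_apply]

theorem iN_x0 : iN x0 = ga * gn * ga⁻¹ * gn⁻¹ := by
  rw [gn, conj_iN, ← iN_neg, ← iN_add]
  simp [x0, a0, ga, iA, W.P, sub_eq_add_neg]

theorem Dz_le (Q : Subgroup (B0 × B0)) (z1 : h1 (ga * ga) ∈ Q) (z2 : h1 (ga⁻¹ * gm) ∈ Q)
    (z3 : h1 gn ∈ Q) (z4 : h2 gn ∈ Q) (z5 : h3 ga ∈ Q) (z6 : h3 gt ∈ Q) (z7 : h3 gm ∈ Q) :
    Dz ≤ Q := by
  have k3 : ∀ e : W0, e.n = 0 → h3 e ∈ Q := gen_E (Q.comap h3) z5 z6 z7
  have k2 : ∀ r, h2 (iN r) ∈ Q := gen_N (Q.comap h2) z4 (by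
    intro e he x hx
    rw [Subgroup.mem_comap, h32]
    exact Q.mul_mem (Q.mul_mem (k3 e he) hx) (Q.inv_mem (k3 e he)))
  have k1 : ∀ x : W0, x.P = 0 → x.k = 0 → h1 x ∈ Q := gen_ker (Q.comap h1) z1 z2 z3 (by
    intro e he x hx
    rw [Subgroup.mem_comap, h31]
    exact Q.mul_mem (Q.mul_mem (k3 e he) hx) (Q.inv_mem (k3 e he)))
  rintro ⟨⟨x, y⟩, ⟨x', y'⟩⟩ ⟨e1, e2, e3, e4, e5, e6, e7⟩
  simp only at e1 e2 e3 e4 e5 e6 e7
  subst e3
  have hρ : (ρ y').P = y'.P := rfl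
  have hρk : (ρ y').k = y'.k := rfl
  have hP : (x * (ρ y')⁻¹).P = 0 := by simp [hρ, hρk, sh_sh, e1, e2]
  have hk : (x * (ρ y')⁻¹).k = 0 := by simp [hρk, e2]
  have := Q.mul_mem (Q.mul_mem (k1 _ hP hk) (k2 y'.n)) (k3 (ρ y') rfl)
  convert this using 1
  simp only [h1_apply, h2_apply, h3_apply, Prod.mk_mul_mk, one_mul, mul_one, iN_ρ,
    inv_mul_cancel_right, Prod.mk.injEq, true_and, and_true]
  have h4 := conj_iN (x * (ρ y')⁻¹) y'.n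
  rw [hP, hk, act_zero, mul_inv_eq_iff_eq_mul] at h4
  rw [h4, mul_assoc, inv_mul_cancel_right]
  ext1 <;> simp [iN, W.P, e4, e5, e6, e7, add_comm]

theorem D0_le (Q : Subgroup (B0 × B0)) (y1 : h1 ga ∈ Q) (y2 : h2 ga ∈ Q) (y3 : h3 gt ∈ Q) :
    D0 ≤ Q := by
  have k3 : ∀ k, h3 (iK k) ∈ Q := fun k => by rw [iK_eq, map_zpow]; exact Q.zpow_mem y3 k
  have k2 : ∀ r, h2 (iA r) ∈ Q := gen_A (Q.comap h2) y2 (by
    intro e x hx
    rw [Subgroup.mem_comap, h32]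
    exact Q.mul_mem (Q.mul_mem (k3 e) hx) (Q.inv_mem (k3 e)))
  have k1 : ∀ r, h1 (iA r) ∈ Q := gen_A (Q.comap h1) y1 (by
    intro e x hx
    rw [Subgroup.mem_comap, h31]
    exact Q.mul_mem (Q.mul_mem (k3 e) hx) (Q.inv_mem (k3 e)))
  rintro ⟨⟨x, y⟩, ⟨x', y'⟩⟩ ⟨e1, e2, e3, e4, e5, e6, e7, e8, e9, e10⟩
  simp only at e1 e2 e3 e4 e5 e6 e7 e8 e9 e10
  subst e6
  have := Q.mul_mem (Q.mul_mem (k1 x.a) (k2 y'.a)) (k3 x.k)
  convert this using 1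
  simp only [h1_apply, h2_apply, h3_apply, Prod.mk_mul_mk, one_mul, mul_one, Prod.mk.injEq]
  refine ⟨⟨?_, ?_⟩, ?_, ?_⟩ <;> ext1 <;> simp [iA, iK, *]

theorem AK_mem (Q : Subgroup (W0 × W0)) (s1 : (ga, ga) ∈ Q) (s2 : (gt, gt) ∈ Q) (a : ℤ →₀ ℤ)
    (k : ℤ) : (iA a * iK k, iA a * iK k) ∈ Q := by
  let d : W0 →* W0 × W0 := (MonoidHom.id W0).prod (MonoidHom.id W0)
  have k3 : ∀ k, iK k ∈ Q.comap d := fun k => by rw [iK_eq]; exact Subgroup.zpow_mem _ s2 k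
  have k1 := gen_A (Q.comap d) s1 (fun k x hx =>
    Subgroup.mul_mem _ (Subgroup.mul_mem _ (k3 k) hx) (Subgroup.inv_mem _ (k3 k)))
  exact (Q.comap d).mul_mem (k1 a) (k3 k)

theorem theta_mem (Q : Subgroup (W0 × W0)) (s1 : (ga, ga) ∈ Q) (s2 : (gt, gt) ∈ Q)
    (s3 : (gm * gm, iN x0 * iN x0) ∈ Q) (s4 : (iN x0 * iN x0, gm * gm) ∈ Q) (g : V ℤ →₀ ℤ)
    (hg : eps g = 0) : ∀ h, (iF (g + g) h, iN (g + g)) ∈ Q ∧ (iN (g + g), iF (g + g) h) ∈ Q := by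
  revert g
  apply I_ind
  · intro h
    simp only [add_zero]
    exact ⟨Q.one_mem, Q.one_mem⟩
  · intro r s hr hs h1 h2 h
    have e : r + s + (r + s) = (r + r) + (s + s) := by abel
    have hr' : eps (r + r) = 0 := by simp [hr]
    have hs' : eps (s + s) = 0 := by simp [hs]
    simp only [e]
    rw [iF_add _ _ hr' hs', iN_add]
    exact ⟨Qmul (h1 hr').1 (h2 hs').1, Qmul (h1 hr').2 (h2 hs').2⟩
  · intro r hr h1 h
    have hr' : eps (r + r) = 0 := by simp [hr]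
    simp only [← neg_add]
    rw [iF_neg _ hr', iN_neg]
    exact ⟨Qinv (h1 hr').1, Qinv (h1 hr').2⟩
  · intro h
    rw [iF_add _ _ eps_x0 eps_x0, iN_add]
    exact ⟨s3, s4⟩
  · intro w k r hr h1 h
    have hr' : eps (r + r) = 0 := by simp [hr]
    have he := AK_mem Q s1 s2 (lf w) k
    have e1 := conj_iF (lf w) k (r + r) hr' (by simp [hr])
    have e2 := conj_iN (iA (lf w) * iK k) (r + r)
    have e3 : (iA (lf w) * iK k).P = w := by simp [iA, iK, W.P, bar_lf]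
    have e4 : (iA (lf w) * iK k).k = k := by simp [iA, iK]
    rw [e3, e4] at e2
    simp only [bar_lf, map_add] at e1 e2
    rw [← e1, ← e2]
    exact ⟨Qmul (Qmul he (h1 hr').1) (Qinv he), Qmul (Qmul he (h1 hr').2) (Qinv he)⟩

theorem Rels.exists_f {H : Type} [Group H] {a t m n τ z y σ θ : H} (R : Rels a t m n τ z y σ θ) :
    ∃ f : B0 →* H, f (ga, 1) = a ∧ f (gt, 1) = t ∧ f (gm, 1) = m ∧ f (gn, 1) = n ∧
      ∀ i, ∀ p ∈ Δ i, ![τ, z, y, σ, θ] i * f p.1 = f p.2 * ![τ, z, y, σ, θ] i := by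
  obtain ⟨Φ, ha, ht, hm, hn, hσ⟩ := R.exists_Phi
  have hΦ : ∀ x, Φ x ∈ Subgroup.closure ({a, t, m, n} : Set H) :=
    gen_W (Subgroup.comap Φ (Subgroup.closure ({a, t, m, n} : Set H))) (by rw [Subgroup.mem_comap, ha]; exact Rels.ha)
      (by rw [Subgroup.mem_comap, ht]; exact Rels.ht)
      (by rw [Subgroup.mem_comap, hm]; exact Rels.hm)
      (by rw [Subgroup.mem_comap, hn]; exact Rels.hn)
  let f : B0 →* H := Φ.noncommCoprod ((MulAut.conj τ).toMonoidHom.comp Φ)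
    (fun x y => R.comm _ (hΦ x) _ (hΦ y))
  have hf : ∀ x y, f (x, y) = Φ x * (τ * Φ y * τ⁻¹) := fun x y => rfl
  have hx0 : Φ (iN x0) = a * n * a⁻¹ * n⁻¹ := by simp [iN_x0, ha, hn]
  refine ⟨f, by simp [hf, ha], by simp [hf, ht], by simp [hf, hm], by simp [hf, hn], ?_⟩
  intro i
  fin_cases i
  · rintro ⟨⟨x, y⟩, ⟨x', y'⟩⟩ ⟨e1, e2, e3⟩
    simp only at e1 e2 e3
    subst e1 e2 e3
    simp [hf]
  · refine Dz_le (Qs f z) ?_ ?_ ?_ ?_ ?_ ?_ ?_ <;>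
      simp only [mem_Qs, h1_apply, h2_apply, h3_apply, hf] <;>
      simp only [map_one, map_mul, map_inv, ha, ht, hm, hn, mul_one, mul_inv_cancel, one_mul]
    exacts [R.z1, R.z2, R.z3, R.z4, R.z5, R.z6, R.z7]
  · refine D0_le (Qs f y) ?_ ?_ ?_ <;>
      simp only [mem_Qs, h1_apply, h2_apply, h3_apply, hf, map_one, ha, ht,
        mul_one, mul_inv_cancel, one_mul]
    exacts [R.y1, R.y2, R.y3]
  · rintro ⟨⟨x, y⟩, ⟨x', y'⟩⟩ ⟨e1, e2, e3, e4, e5, e6, e7⟩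
    simp only at e1 e2 e3 e4 e5 e6 e7
    subst e1 e2
    have k1 := AK_mem (Qs Φ σ) (by simpa [mem_Qs, ha] using R.s1.eq)
      (by simpa [mem_Qs, ht] using R.s2.eq) x.a x.k
    have k2 : (iF x.f x.hf, iN x.f) ∈ Qs Φ σ := hσ _ _
    have := (Qs Φ σ).mul_mem k2 k1
    have e8 : iF x.f x.hf * (iA x.a * iK x.k) = x := by ext1 <;> simp [iF, iA, iK, e3]
    have e9 : iN x.f * (iA x.a * iK x.k) = x' := by ext1 <;> simp [iN, iA, iK, *]
    rw [Prod.mk_mul_mk, e8, e9, mem_Qs] at this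
    simpa [hf] using this
  · rintro ⟨⟨x, y⟩, ⟨x', y'⟩⟩ ⟨e1, e2, ⟨g, e3⟩, ⟨g', e4⟩, e5, e6, e7, e8⟩
    simp only at e1 e2 e3 e4 e5 e6 e7 e8
    subst e1 e2
    have s1 : (ga, ga) ∈ Qs Φ θ := by simpa [mem_Qs, ha] using R.t1.eq
    have s2 : (gt, gt) ∈ Qs Φ θ := by simpa [mem_Qs, ht] using R.t2.eq
    have s3 : (gm * gm, iN x0 * iN x0) ∈ Qs Φ θ := by simpa [mem_Qs, hm, hx0] using R.t3
    have s4 : (iN x0 * iN x0, gm * gm) ∈ Qs Φ θ := by simpa [mem_Qs, hm, hx0] using R.t4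
    have hg : eps (g + g) = 0 := by rw [← e3, ← e6]; exact x'.hf
    have hg' : eps (g' + g') = 0 := by rw [← e4]; exact x.hf
    have k1 := AK_mem (Qs Φ θ) s1 s2 x.a x.k
    have k2 := (theta_mem _ s1 s2 s3 s4 g (by rw [map_add] at hg; omega) hg).2
    have k3 := (theta_mem _ s1 s2 s3 s4 g' (by rw [map_add] at hg'; omega) hg').1
    have := (Qs Φ θ).mul_mem ((Qs Φ θ).mul_mem k2 k3) k1
    have e9 : iN (g + g) * iF (g' + g') hg' * (iA x.a * iK x.k) = x := by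
      ext1 <;> simp [iN, iF, iA, iK, e3, e4]
    have e10 : iF (g + g) hg * iN (g' + g') * (iA x.a * iK x.k) = x' := by
      ext1 <;> simp [iN, iF, iA, iK, W.P, V_add_self, *]
    rw [Prod.mk_mul_mk, Prod.mk_mul_mk, e9, e10, mem_Qs] at this
    simpa [hf] using this

end H471Z.Dif
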