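import Pool.Agent.H471Z.Dif.Ext
import Pool.Agent.Helper694.CS.J_hnn_tf
set_option autoImplicit false

namespace H471Z.Dif

open HNNExtension HNNExtension.NormalWord Pool.CS.N_hnn_tf

/-- a family of finite-index normal subgroups closed under intersection. -/
structure Fam {G : Type} [Group G] (N : Subgroup G → Prop) : Prop where
  normal : ∀ U, N U → U.Normal
  fin : ∀ U, N U → U.FiniteIndex
  top : N ⊤
  inf : ∀ U V, N U → N V → N (U ⊓ V)

/-- closed sets for the topology of the family. -/
def Cl {G : Type} [Group G] (N : Subgroup G → Prop) (S : Set G) : Prop :=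
  ∀ g, g ∉ S → ∃ U, N U ∧ ∀ u ∈ U, g * u ∉ S

theorem Cl.list {G : Type} [Group G] {N : Subgroup G → Prop} (hN : Fam N) {S : Set G}
    (hS : Cl N S) (l : List G) : ∃ U, N U ∧ ∀ x ∈ l, x ∉ S → ∀ u ∈ U, x * u ∉ S := by
  induction l with
  | nil => exact ⟨⊤, hN.top, by simp⟩
  | cons a l ih =>
    obtain ⟨U, hU, h⟩ := ih
    by_cases ha : a ∈ S
    · refine ⟨U, hU, ?_⟩
      intro x hx hxS
      rcases List.mem_cons.1 hx with rfl | hx
      · exact absurd ha hxS
      · exact h x hx hxS
    · obtain ⟨V, hV, h'⟩ := hS a ha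
      refine ⟨U ⊓ V, hN.inf _ _ hU hV, ?_⟩
      intro x hx hxS u hu
      rcases List.mem_cons.1 hx with rfl | hx
      · exact h' u hu.2
      · exact h x hx hxS u hu.1

/-- action on cosets times a set of levels. -/
def rho {G : Type} [Group G] (U : Subgroup G) (Y : Type) : G →* Equiv.Perm ((G ⧸ U) × Y) where
  toFun g := Equiv.prodCongr (MulAction.toPerm g) (Equiv.refl Y)
  map_one' := by ext x <;> simp
  map_mul' a b := by ext x <;> simp [mul_smul]

theorem rho_mk {G : Type} [Group G] (U : Subgroup G) (Y : Type) (g x : G) (y : Y) :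
    rho U Y g ((x : G ⧸ U), y) = (((g * x : G) : G ⧸ U), y) := rfl

theorem rho_fix {G : Type} [Group G] (U : Subgroup G) (hU : U.Normal) (Y : Type) (g : G)
    (ω : (G ⧸ U) × Y) : rho U Y g ω = ω ↔ g ∈ U := by
  obtain ⟨x, y⟩ := ω
  induction x using QuotientGroup.induction_on with
  | H x =>
    rw [rho_mk, Prod.mk.injEq, QuotientGroup.eq]
    constructor
    · rintro ⟨h, -⟩
      have := hU.conj_mem _ (U.inv_mem h) x
      simpa [mul_assoc] using this
    · intro h
      refine ⟨?_, rfl⟩
      have := hU.conj_mem _ (U.inv_mem h) x⁻¹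
      simpa [mul_assoc] using this

theorem sep_aux {G : Type} [Group G] (U : Subgroup G) (A : Subgroup G) (n : ℕ)
    (e : Fin n → ℤˣ) (b : Fin n → G) (c : ℤˣ)
    (hb : ∀ i j : Fin n, j.val = i.val + 1 → e i = c → e j ≠ c → ∀ u ∈ U, b i * u ∉ A)
    (i j : Fin n) (d : A)
    (h : rho U (Fin (n + 1)) d
      (if e i = c then ((b i : G ⧸ U), i.succ) else (((1 : G) : G ⧸ U), i.castSucc)) =
      (if e j = c then ((b j : G ⧸ U), j.succ) else (((1 : G) : G ⧸ U), j.castSucc))) : i = j := by
  by_cases hi : e i = c <;> by_cases hj : e j = c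
  · rw [if_pos hi, if_pos hj, rho_mk, Prod.mk.injEq] at h
    exact Fin.succ_injective _ h.2
  · rw [if_pos hi, if_neg hj, rho_mk, Prod.mk.injEq, QuotientGroup.eq] at h
    have h2 : j.val = i.val + 1 := by
      have := congrArg Fin.val h.2
      simpa using this.symm
    exfalso
    refine hb i j h2 hi hj _ h.1 ?_
    have : b i * ((d * b i)⁻¹ * 1) = (d : G)⁻¹ := by group
    rw [this]
    exact A.inv_mem d.2
  · rw [if_neg hi, if_pos hj, rho_mk, Prod.mk.injEq, QuotientGroup.eq] at h
    have h2 : i.val = j.val + 1 := by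
      have := congrArg Fin.val h.2
      simpa using this
    exfalso
    refine hb j i h2 hj hi _ (U.inv_mem h.1) ?_
    have : b j * (((d : G) * 1)⁻¹ * b j)⁻¹ = (d : G) := by group
    rw [this]
    exact d.2
  · rw [if_neg hi, if_neg hj, rho_mk, Prod.mk.injEq] at h
    exact Fin.castSucc_injective _ h.2

theorem step_cl {G : Type} [Group G] {N : Subgroup G → Prop} (hN : Fam N) {A B : Subgroup G}
    (φ : A ≃* B) (hφ : ∀ U, N U → ∀ a : A, (a : G) ∈ U ↔ (φ a : G) ∈ U)
    (hA : Cl N A) (hB : Cl N B) {S : Set G} (hS : Cl N S) :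
    Cl (fun U' : Subgroup (HNNExtension G A B φ) =>
      U'.Normal ∧ U'.FiniteIndex ∧ N (U'.comap HNNExtension.of)) (HNNExtension.of '' S) := by
  classical
  intro g hg
  obtain ⟨⟨h, l, hc⟩, rfl⟩ := Pool.CS.hnn_word φ g
  have e0 : (⟨h, l, hc⟩ : ReducedWord G A B).prod φ = of h * lp φ l := rfl
  rw [e0] at hg ⊢
  obtain ⟨U1, hU1, h1⟩ := hA.list hN (l.map Prod.snd)
  obtain ⟨U2, hU2, h2⟩ := hB.list hN (l.map Prod.snd)
  obtain ⟨U3, hU3, h3⟩ := hS.list hN [h]
  set U := U1 ⊓ U2 ⊓ U3 with hUdef
  have hU : N U := hN.inf _ _ (hN.inf _ _ hU1 hU2) hU3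
  have hUn := hN.normal U hU
  have hUf := hN.fin U hU
  set n := l.length with hn
  let e : Fin n → ℤˣ := fun i => (l[i.val]).1
  let b : Fin n → G := fun i => (l[i.val]).2
  have hbm : ∀ i, b i ∈ l.map Prod.snd := fun i =>
    List.mem_map.2 ⟨l[i.val], List.getElem_mem _, rfl⟩
  have hch : ∀ i j : Fin n, j.val = i.val + 1 → b i ∈ toSubgroup A B (e i) → e i = e j := by
    intro i j hij hm
    have := (List.isChain_iff_getElem.1 hc) i.val (by have := j.2; omega) hm
    simp only [e]
    rw [this]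
    congr 2
    exact hij.symm
  let p : Fin n → (G ⧸ U) × Fin (n + 1) := fun i =>
    if e i = 1 then ((b i : G ⧸ U), i.succ) else (((1 : G) : G ⧸ U), i.castSucc)
  let q : Fin n → (G ⧸ U) × Fin (n + 1) := fun i =>
    if e i = -1 then ((b i : G ⧸ U), i.succ) else (((1 : G) : G ⧸ U), i.castSucc)
  obtain ⟨T, hT, hTp⟩ := ext_perm ((rho U (Fin (n + 1))).comp A.subtype)
    ((rho U (Fin (n + 1))).comp (B.subtype.comp φ.toMonoidHom)) (fun a : A => (a : G) ∈ U)
    (fun d ω => rho_fix U hUn _ _ ω)
    (fun d ω => (rho_fix U hUn _ _ ω).trans (hφ U hU d).symm) p q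
    (by
      intro i j d hd
      refine sep_aux U A n e b 1 ?_ i j d hd
      intro i j hij hi hj u hu
      refine h1 _ (hbm i) ?_ u hu.1.1
      intro hm
      apply hj
      rw [← hch i j hij (by rw [hi]; exact hm), hi])
    (by
      intro i j d hd
      refine sep_aux U B n e b (-1) ?_ i j (φ d) hd
      intro i j hij hi hj u hu
      refine h2 _ (hbm i) ?_ u hu.1.2
      intro hm
      apply hj
      rw [← hch i j hij (by rw [hi]; exact hm), hi])
  let F : HNNExtension G A B φ →* Equiv.Perm ((G ⧸ U) × Fin (n + 1)) :=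
    HNNExtension.lift (rho U (Fin (n + 1))) T (by
      intro a
      ext1 ω
      exact hT a ω)
  have hev : ∀ k j (hj : j + k = n), F (lp φ (l.drop j)) (((1 : G) : G ⧸ U), Fin.last n) =
      (((1 : G) : G ⧸ U), (⟨j, by omega⟩ : Fin (n + 1))) := by
    intro k
    induction k with
    | zero =>
      intro j hj
      have : l.drop j = [] := List.drop_eq_nil_of_le (by omega)
      rw [this, lp_nil, map_one]
      simp only [Equiv.Perm.coe_one, id_eq, Prod.mk.injEq, true_and]
      ext; simp; omega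
    | succ k ih =>
      intro j hj
      have hjn : j < l.length := by omega
      rw [List.drop_eq_getElem_cons hjn, lp_cons, map_mul, map_mul, Equiv.Perm.mul_apply,
        Equiv.Perm.mul_apply, ih (j + 1) (by omega), map_zpow]
      simp only [F, lift_t, lift_of]
      rw [rho_mk, mul_one]
      have hp := hTp ⟨j, hjn⟩
      rcases Int.units_eq_one_or (l[j]).1 with he | he
      · have he' : e ⟨j, hjn⟩ = 1 := he
        simp only [p, q, he', if_true] at hp
        rw [if_neg (by decide)] at hp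
        rw [he]
        simpa using hp
      · have he' : e ⟨j, hjn⟩ = -1 := he
        simp only [p, q, he', if_true] at hp
        rw [if_neg (by decide)] at hp
        rw [he]
        simp only [Units.val_neg, Units.val_one, zpow_neg, zpow_one]
        rw [Equiv.Perm.inv_eq_iff_eq]
        exact hp.symm
  have hk : F.ker.comap HNNExtension.of = U := by
    ext x
    rw [Subgroup.mem_comap, MonoidHom.mem_ker]
    simp only [F, lift_of]
    constructor
    · intro hx
      exact (rho_fix U hUn _ x (((1 : G) : G ⧸ U), Fin.last n)).1 (by rw [hx]; rfl)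
    · intro hx
      ext1 ω
      exact (rho_fix U hUn _ x ω).2 hx
  refine ⟨F.ker, ⟨inferInstance, inferInstance, by rw [hk]; exact hU⟩, ?_⟩
  rintro u hu ⟨s, hs, hsu⟩
  have h4 := congrArg (fun x => F x (((1 : G) : G ⧸ U), Fin.last n)) hsu
  have h5 := hev n 0 (by omega)
  rw [List.drop_zero] at h5
  simp only [map_mul, MonoidHom.mem_ker.1 hu, mul_one, Equiv.Perm.mul_apply, h5] at h4
  simp only [F, lift_of] at h4
  rw [rho_mk, rho_mk, Prod.mk.injEq, QuotientGroup.eq] at h4
  have hn0 : n = 0 := by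
    have := congrArg Fin.val h4.2
    simpa using this
  have hl : l = [] := List.length_eq_zero_iff.1 hn0
  have hh : h ∉ S := by
    intro hh
    apply hg
    refine ⟨h, hh, ?_⟩
    rw [hl, lp_nil, mul_one]
  refine h3 h (by simp) hh _ (U.inv_mem h4.1).2 ?_
  have : h * ((s * 1)⁻¹ * (h * 1))⁻¹ = s := by group
  rw [this]
  exact hs

end H471Z.Dif
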