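import Pool.Agent.H471Z.Dif.Gen
set_option autoImplicit false
set_option linter.unusedSectionVars false

namespace H471Z.Dif

open Finsupp

/-- additive-to-multiplicative maps. -/
def IsH {A H : Type} [AddCommGroup A] [Group H] (μ : A → H) : Prop :=
  ∀ r s, μ (r + s) = μ r * μ s

theorem IsH.zero {A H : Type} [AddCommGroup A] [Group H] {μ : A → H} (h : IsH μ) : μ 0 = 1 := by
  have := h 0 0
  rw [add_zero] at this
  exact left_eq_mul.1 this

theorem IsH.neg {A H : Type} [AddCommGroup A] [Group H] {μ : A → H} (h : IsH μ) (r : A) :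
    μ (-r) = (μ r)⁻¹ := by
  rw [eq_inv_iff_mul_eq_one, ← h, neg_add_cancel, h.zero]

theorem IsH.ext {X H : Type} [Group H] {μ μ' : (X →₀ ℤ) → H} (h : IsH μ) (h' : IsH μ')
    (hs : ∀ x, μ (single x 1) = μ' (single x 1)) (r : X →₀ ℤ) : μ r = μ' r := by
  induction r using fs_ind with
  | h0 => rw [h.zero, h'.zero]
  | hadd r s hr hs => rw [h, h', hr, hs]
  | hneg r hr => rw [h.neg, h'.neg, hr]
  | hs x => exact hs x

theorem IsH.conj {A H : Type} [AddCommGroup A] [Group H] {μ : A → H} (h : IsH μ) (g : H) :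
    IsH (fun r => g * μ r * g⁻¹) := by
  intro r s
  simp only [h r s]
  group

theorem IsH.comp {A A' H : Type} [AddCommGroup A] [AddCommGroup A'] [Group H] {μ : A → H}
    (h : IsH μ) (φ : A' →+ A) : IsH (fun r => μ (φ r)) := by
  intro r s
  simp only [map_add, h _ _]

theorem exists_isH {X H : Type} [Group H] (c : X → H) (hc : ∀ i j, Commute (c i) (c j)) :
    ∃ μ : (X →₀ ℤ) → H, IsH μ ∧ ∀ i, μ (single i 1) = c i := by
  let C := Subgroup.closure (Set.range c)
  have hC : IsMulCommutative C := Subgroup.isMulCommutative_closure (by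
    rintro _ ⟨i, rfl⟩ _ ⟨j, rfl⟩
    exact hc i j)
  let _ : CommGroup C := { (inferInstance : Group C) with mul_comm := hC.is_comm.comm }
  let c' : X → Additive C := fun i => Additive.ofMul ⟨c i, Subgroup.subset_closure ⟨i, rfl⟩⟩
  let L : (X →₀ ℤ) →+ Additive C := Finsupp.liftAddHom fun i => zmultiplesHom (Additive C) (c' i)
  refine ⟨fun p => ((Additive.toMul (L p) : C) : H), fun p q => by simp, fun i => ?_⟩
  have h4 : L (Finsupp.single i 1) = c' i := by
    simp [L]
  dsimp only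
  rw [h4]
  rfl

theorem nt_lemma {H : Type} [Group H] (τ z n r c : H)
    (h1 : Commute r (τ * (c * n * c⁻¹) * τ⁻¹)) (hz : Commute z r)
    (hδ : Commute z (c * (τ * c * τ⁻¹))) (hn : z * (τ * n * τ⁻¹) = n * (τ * n * τ⁻¹) * z)
    (hc1 : Commute c (τ * c * τ⁻¹)) (hc2 : Commute c (τ * n * τ⁻¹))
    (hc3 : Commute n (τ * c * τ⁻¹)) : Commute r (c * n * c⁻¹) := by
  set c' := τ * c * τ⁻¹ with hc'
  set n' := τ * n * τ⁻¹ with hn'
  have e1 : τ * (c * n * c⁻¹) * τ⁻¹ = c' * n' * c'⁻¹ := by rw [hc', hn']; group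
  rw [e1] at h1
  have hcc : Commute c (c' * n' * c'⁻¹) := (hc1.mul_right hc2).mul_right hc1.inv_right
  have e2 : c' * n' * c'⁻¹ = (c * c') * n' * (c * c')⁻¹ := by
    have := hcc.eq
    calc c' * n' * c'⁻¹ = c * (c' * n' * c'⁻¹) * c⁻¹ := by rw [this]; group
      _ = _ := by group
  have e3 : z * (c' * n' * c'⁻¹) * z⁻¹ = (c * n * c⁻¹) * (c' * n' * c'⁻¹) := by
    have e4 : z * n' * z⁻¹ = n * n' := by rw [hn]; group
    have e5 : z * (c * c') * z⁻¹ = c * c' := by rw [hδ.eq]; group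
    calc z * (c' * n' * c'⁻¹) * z⁻¹
        = (z * (c * c') * z⁻¹) * (z * n' * z⁻¹) * (z * (c * c') * z⁻¹)⁻¹ := by rw [e2]; group
      _ = c * (c' * n) * n' * c'⁻¹ * c⁻¹ := by rw [e4, e5]; group
      _ = c * n * (c' * n' * c'⁻¹) * c⁻¹ := by rw [← hc3.eq]; group
      _ = _ := by
        rw [mul_assoc (c * n), ← hcc.inv_left.eq]; group
  have h2 : Commute r (z * (c' * n' * c'⁻¹) * z⁻¹) := by
    have e6 : z * r * z⁻¹ = r := by rw [hz.eq]; group
    have := h1.map (MulAut.conj z).toMonoidHom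
    simp only [MulEquiv.coe_toMonoidHom, MulAut.conj_apply] at this
    rwa [e6] at this
  rw [e3] at h2
  have := h2.mul_right h1.inv_right
  simpa [mul_assoc] using this

/-- the defining relations. -/
structure Rels {H : Type} [Group H] (a t m n τ z y σ θ : H) : Prop where
  c : ∀ g ∈ ({a, t, m, n} : Set H), ∀ h ∈ ({a, t, m, n} : Set H), Commute g (τ * h * τ⁻¹)
  nt : Commute n t
  z1 : Commute z (a * a)
  z2 : Commute z (a⁻¹ * m)
  z3 : Commute z n
  z4 : z * (τ * n * τ⁻¹) = n * (τ * n * τ⁻¹) * z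
  z5 : Commute z (a * (τ * a * τ⁻¹))
  z6 : Commute z (t * (τ * t * τ⁻¹))
  z7 : Commute z (m * (τ * m * τ⁻¹))
  y1 : Commute y a
  y2 : y * (τ * a * τ⁻¹) = a * (τ * a * τ⁻¹) * y
  y3 : Commute y (t * (τ * t * τ⁻¹))
  s1 : Commute σ a
  s2 : Commute σ t
  s3 : σ * m = a * n * a⁻¹ * n⁻¹ * σ
  t1 : Commute θ a
  t2 : Commute θ t
  t3 : θ * (m * m) = (a * n * a⁻¹ * n⁻¹) * (a * n * a⁻¹ * n⁻¹) * θ
  t4 : θ * ((a * n * a⁻¹ * n⁻¹) * (a * n * a⁻¹ * n⁻¹)) = m * m * θ

namespace Rels
variable {H : Type} [Group H] {a t m n τ z y σ θ : H}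

theorem comm (R : Rels a t m n τ z y σ θ) (g : H) (hg : g ∈ Subgroup.closure ({a, t, m, n} : Set H))
    (h : H) (hh : h ∈ Subgroup.closure ({a, t, m, n} : Set H)) : Commute g (τ * h * τ⁻¹) := by
  induction hg using Subgroup.closure_induction with
  | mem g hg =>
    induction hh using Subgroup.closure_induction with
    | mem h hh => exact R.c g hg h hh
    | one => simp
    | mul x y _ _ hx hy =>
      have := hx.mul_right hy
      simpa [mul_assoc] using this
    | inv x _ hx =>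
      have := hx.inv_right
      simpa [mul_assoc] using this
  | one => simp
  | mul x y _ _ hx hy => exact hx.mul_left hy
  | inv x _ hx => exact hx.inv_left

theorem diag (R : Rels a t m n τ z y σ θ) (w : H) (S : Set H)
    (hS : S ⊆ Subgroup.closure ({a, t, m, n} : Set H))
    (hw : ∀ c ∈ S, Commute w (c * (τ * c * τ⁻¹))) (c : H) (hc : c ∈ Subgroup.closure S) :
    Commute w (c * (τ * c * τ⁻¹)) := by
  have hS' : Subgroup.closure S ≤ Subgroup.closure ({a, t, m, n} : Set H) :=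
    (Subgroup.closure_le _).2 hS
  induction hc using Subgroup.closure_induction with
  | mem c hc => exact hw c hc
  | one => simp
  | mul x y hx hy ihx ihy =>
    have h1 := (R.comm y (hS' hy) x (hS' hx)).eq
    have : x * y * (τ * (x * y) * τ⁻¹) = (x * (τ * x * τ⁻¹)) * (y * (τ * y * τ⁻¹)) := by
      calc _ = x * (y * (τ * x * τ⁻¹)) * (τ * y * τ⁻¹) := by group
        _ = _ := by rw [h1]; group
    rw [this]
    exact ihx.mul_right ihy
  | inv x hx ihx =>
    have h1 := (R.comm x (hS' hx) x (hS' hx)).eq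
    have : x⁻¹ * (τ * x⁻¹ * τ⁻¹) = (x * (τ * x * τ⁻¹))⁻¹ := by
      rw [h1]; group
    rw [this]
    exact ihx.inv_right

theorem ha : a ∈ Subgroup.closure ({a, t, m, n} : Set H) := Subgroup.subset_closure (by simp)
theorem ht : t ∈ Subgroup.closure ({a, t, m, n} : Set H) := Subgroup.subset_closure (by simp)
theorem hm : m ∈ Subgroup.closure ({a, t, m, n} : Set H) := Subgroup.subset_closure (by simp)
theorem hn : n ∈ Subgroup.closure ({a, t, m, n} : Set H) := Subgroup.subset_closure (by simp)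

theorem sub3 : ({a, t, m} : Set H) ⊆ Subgroup.closure ({a, t, m, n} : Set H) := by
  intro x hx
  apply Subgroup.subset_closure
  simp only [Set.mem_insert_iff, Set.mem_singleton_iff] at hx ⊢
  tauto

theorem zz (R : Rels a t m n τ z y σ θ) (r : H) (hr : r ∈ Subgroup.closure ({a, t, m, n} : Set H))
    (hz : Commute z r) (c : H) (hc : c ∈ Subgroup.closure ({a, t, m} : Set H)) :
    Commute r (c * n * c⁻¹) := by
  have hc' : c ∈ Subgroup.closure ({a, t, m, n} : Set H) := (Subgroup.closure_le _).2 sub3 hc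
  refine nt_lemma τ z n r c (R.comm _ hr _ ?_) hz (R.diag z _ sub3 ?_ c hc) R.z4
    (R.comm _ hc' _ hc') (R.comm _ hc' _ hn) (R.comm _ hn _ hc')
  · exact Subgroup.mul_mem _ (Subgroup.mul_mem _ hc' hn) (Subgroup.inv_mem _ hc')
  · rintro c (rfl | rfl | rfl)
    exacts [R.z5, R.z6, R.z7]

theorem yy (R : Rels a t m n τ z y σ θ) (k : ℤ) : Commute a (t ^ k * a * (t ^ k)⁻¹) := by
  have hc' : t ^ k ∈ Subgroup.closure ({a, t, m, n} : Set H) := Subgroup.zpow_mem _ ht k
  refine nt_lemma τ y a a (t ^ k) (R.comm _ ha _ ?_) R.y1 (R.diag y {t} ?_ ?_ _ ?_) R.y2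
    (R.comm _ hc' _ hc') (R.comm _ hc' _ ha) (R.comm _ ha _ hc')
  · exact Subgroup.mul_mem _ (Subgroup.mul_mem _ hc' ha) (Subgroup.inv_mem _ hc')
  · rintro c rfl
    exact ht
  · rintro c rfl
    exact R.y3
  · exact Subgroup.zpow_mem _ (Subgroup.subset_closure (Set.mem_singleton t)) k

theorem exists_A (R : Rels a t m n τ z y σ θ) : ∃ A : (ℤ →₀ ℤ) → H, IsH A ∧
    ∀ i, A (single i 1) = t ^ i * a * (t ^ i)⁻¹ := by
  apply exists_isH
  intro i j
  have := (R.yy (j - i)).map (MulAut.conj (t ^ i)).toMonoidHom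
  simp only [MulEquiv.coe_toMonoidHom, MulAut.conj_apply] at this
  convert this using 1
  group

theorem exists_Phi (R : Rels a t m n τ z y σ θ) : ∃ Φ : W0 →* H, Φ ga = a ∧ Φ gt = t ∧
    Φ gm = m ∧ Φ gn = n ∧ (∀ f hf, σ * Φ (iF f hf) = Φ (iN f) * σ) := by
  obtain ⟨A, hA, hAs⟩ := R.exists_A
  have hA0 : A (single 0 1) = a := by simp [hAs]
  have tA : ∀ k b, t ^ k * A b * (t ^ k)⁻¹ = A (sh k b) := by
    intro k
    apply (hA.conj _).ext (hA.comp (sh k))
    intro i
    simp only [sh_single, hAs]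
    group
  have AE : ∀ b, A b ∈ Subgroup.closure ({a, t, m} : Set H) := by
    intro b
    have h1 : a ∈ Subgroup.closure ({a, t, m} : Set H) := Subgroup.subset_closure (by simp)
    have h2 : t ∈ Subgroup.closure ({a, t, m} : Set H) := Subgroup.subset_closure (by simp)
    induction b using fs_ind with
    | h0 => rw [hA.zero]; exact Subgroup.one_mem _
    | hadd r s hr hs => rw [hA]; exact Subgroup.mul_mem _ hr hs
    | hneg r hr => rw [hA.neg]; exact Subgroup.inv_mem _ hr
    | hs i =>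
      rw [hAs]
      exact Subgroup.mul_mem _ (Subgroup.mul_mem _ (Subgroup.zpow_mem _ h2 i) h1)
        (Subgroup.inv_mem _ (Subgroup.zpow_mem _ h2 i))
  have hA2 : ∀ g, Commute (A (g + g)) n := by
    intro g
    induction g using fs_ind with
    | h0 => rw [add_zero, hA.zero]; simp
    | hadd r s hr hs =>
      rw [show r + s + (r + s) = (r + r) + (s + s) by abel, hA]; exact hr.mul_left hs
    | hneg r hr => rw [← neg_add, hA.neg]; exact hr.inv_left
    | hs i =>
      have h1 := R.zz (a * a) (Subgroup.mul_mem _ ha ha) R.z1 1 (Subgroup.one_mem _)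
      rw [one_mul, inv_one, mul_one] at h1
      have h2 : Commute (t ^ i) n := (R.nt.symm).zpow_left i
      rw [hA, hAs]
      have := (h2.mul_left h1).mul_left h2.inv_left
      rw [show t ^ i * a * (t ^ i)⁻¹ * (t ^ i * a * (t ^ i)⁻¹) = t ^ i * (a * a) * (t ^ i)⁻¹ by
        simp [mul_assoc]]
      exact this
  let nv : V ℤ → H := fun v => A (lf v) * n * (A (lf v))⁻¹
  have nv_eq : ∀ b, A b * n * (A b)⁻¹ = nv (bar χ0 b) := by
    intro b
    obtain ⟨g, hg⟩ := even_of_bar (b - lf (bar χ0 b)) (by rw [map_sub, bar_lf, sub_self])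
    have h1 : b = lf (bar χ0 b) + (g + g) := by rw [← hg]; abel
    have h2 := (hA2 g).eq
    simp only [nv]
    conv_lhs => rw [h1, hA]
    calc _ = A (lf (bar χ0 b)) * (A (g + g) * n) * (A (g + g))⁻¹ * (A (lf (bar χ0 b)))⁻¹ := by
          group
      _ = _ := by rw [h2]; group
  obtain ⟨ν, hν, hνs⟩ := exists_isH nv (by
    intro v v'
    have h1 := (R.zz n hn R.z3 _ (AE (lf v' - lf v))).map (MulAut.conj (A (lf v))).toMonoidHom
    simp only [MulEquiv.coe_toMonoidHom, MulAut.conj_apply] at h1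
    have h2 : A (lf v') = A (lf v) * A (lf v' - lf v) := by rw [← hA]; congr 1; abel
    simp only [nv]
    rw [h2]
    convert h1 using 1
    group)
  have Aν : ∀ b r, A b * ν r * (A b)⁻¹ = ν (act (bar χ0 b) 0 r) := by
    intro b
    apply (hν.conj _).ext (hν.comp (act (bar χ0 b) 0))
    intro v
    simp only [act_single, hνs, sh_zero]
    rw [← bar_lf v, ← map_add, ← nv_eq, ← nv_eq, hA]
    group
  have tν : ∀ k r, t ^ k * ν r * (t ^ k)⁻¹ = ν (act 0 k r) := by
    intro k
    apply (hν.conj _).ext (hν.comp (act 0 k))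
    intro v
    simp only [act_single, hνs, zero_add]
    rw [← bar_lf v, ← bar_sh, ← nv_eq, ← nv_eq, ← tA]
    have h2 : Commute (t ^ k) n := (R.nt.symm).zpow_left k
    calc _ = t ^ k * A (lf v) * (t ^ k)⁻¹ * (t ^ k * n) * (A (lf v))⁻¹ * (t ^ k)⁻¹ := by group
      _ = _ := by rw [h2.eq]; group
  have gν : ∀ b k r, (A b * t ^ k) * ν r * (A b * t ^ k)⁻¹ = ν (act (bar χ0 b) k r) := by
    intro b k r
    calc _ = A b * (t ^ k * ν r * (t ^ k)⁻¹) * (A b)⁻¹ := by group
      _ = _ := by rw [tν, Aν, act_act]; simp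
  have σA : ∀ b, Commute σ (A b) := by
    intro b
    induction b using fs_ind with
    | h0 => rw [hA.zero]; simp
    | hadd r s hr hs => rw [hA]; exact hr.mul_right hs
    | hneg r hr => rw [hA.neg]; exact hr.inv_right
    | hs i =>
      rw [hAs]
      exact ((R.s2.zpow_right i).mul_right R.s1).mul_right (R.s2.zpow_right i).inv_right
  let μ : (V ℤ →₀ ℤ) → H := fun r => σ⁻¹ * ν r * σ⁻¹⁻¹
  have hμ : IsH μ := hν.conj _
  have gμ : ∀ b k r, (A b * t ^ k) * μ r * (A b * t ^ k)⁻¹ = μ (act (bar χ0 b) k r) := by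
    intro b k r
    have h1 : Commute σ (A b * t ^ k) := (σA b).mul_right (R.s2.zpow_right k)
    simp only [μ]
    rw [← gν]
    calc _ = (A b * t ^ k * σ⁻¹) * ν r * (σ * (A b * t ^ k)⁻¹) := by group
      _ = _ := by rw [← h1.inv_left.eq, h1.inv_right.eq]; group
  have nv0 : nv 0 = n := by
    have := nv_eq 0
    rw [hA.zero, map_zero] at this
    rw [← this]; simp
  have νx : ν x0 = a * n * a⁻¹ * n⁻¹ := by
    rw [x0, sub_eq_add_neg, hν, hν.neg, hνs, hνs, nv0]
    have := nv_eq (single 0 1)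
    rw [hA0, bar_single, map_one] at this
    rw [a0, ← this]
  have μx : μ x0 = m := by
    simp only [μ]
    rw [νx, mul_assoc, inv_inv, ← R.s3]
    group
  have μν : ∀ f, eps f = 0 → ∀ r, μ f * ν r * (μ f)⁻¹ = ν (act (psi χ0 f) 0 r) := by
    apply I_ind
    · intro r; rw [hμ.zero]; simp
    · intro f g _ _ hf hg r
      rw [hμ]
      calc _ = μ f * (μ g * ν r * (μ g)⁻¹) * (μ f)⁻¹ := by group
        _ = _ := by rw [hg, hf, act_act]; simp
    · intro f _ hf r
      rw [hμ.neg]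
      have := hf (act (psi χ0 (-f)) 0 r)
      rw [act_act] at this
      simp only [map_neg, sh_zero, add_neg_cancel, add_zero, act_zero] at this
      rw [← this, map_neg]
      group
    · apply (hν.conj _).ext (hν.comp (act (psi χ0 x0) 0))
      intro v
      simp only [act_single, hνs, sh_zero, psi_x0, μx]
      have h1 := (R.zz (a⁻¹ * m) (Subgroup.mul_mem _ (Subgroup.inv_mem _ ha) hm) R.z2 _
        (AE (lf v))).eq
      have h2 := Aν (single 0 1) (single v 1)
      rw [hA0, act_single, hνs, hνs, sh_zero, bar_single, map_one] at h2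
      rw [a0, ← h2]
      calc m * nv v * m⁻¹ = a * (a⁻¹ * m * nv v) * m⁻¹ := by group
        _ = _ := by simp only [nv]; rw [h1]; group
    · intro w k f hf ih r
      have h1 := gμ (lf w) k f
      rw [bar_lf] at h1
      have h2 : r = act w k (act (-sh (-k) w) (-k) r) := by
        rw [act_act]; simp [sh_sh]
      generalize act (-sh (-k) w) (-k) r = r0 at h2
      subst h2
      have h3 := gν (lf w) k r0
      have h4 := gν (lf w) k (act (psi χ0 f) 0 r0)
      rw [bar_lf] at h3 h4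
      rw [← h1, ← h3]
      calc _ = (A (lf w) * t ^ k) * (μ f * ν r0 * (μ f)⁻¹) * (A (lf w) * t ^ k)⁻¹ := by group
        _ = _ := by
          rw [ih, h4, act_act, act_act, psi_act, hf]
          simp [add_comm]
  refine ⟨MonoidHom.mk' (fun x => ν x.n * μ x.f * (A x.a * t ^ x.k)) ?_, ?_, ?_, ?_, ?_, ?_⟩
  · intro x y
    simp only [W.mul_n, W.mul_f, W.mul_a, W.mul_k]
    rw [hν, hμ, hA, ← tA, ← gμ, zpow_add]
    have h1 : ν (act x.P x.k y.n) =
        μ x.f * ((A x.a * t ^ x.k) * ν y.n * (A x.a * t ^ x.k)⁻¹) * (μ x.f)⁻¹ := by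
      rw [gν, μν _ x.hf, act_act]
      simp [W.P]
    rw [h1]
    group
  · simp [ga, iA, hν.zero, hμ.zero, hA0]
  · simp [gt, iK, hν.zero, hμ.zero, hA.zero]
  · simp [gm, iF, hν.zero, μx, hA.zero]
  · simp [gn, iN, hνs, nv0, hμ.zero, hA.zero]
  · intro f hf
    simp [iF, iN, hν.zero, hA.zero, μ, mul_assoc]

end Rels

end H471Z.Dif
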