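import Mathlib
set_option autoImplicit false
set_option linter.unusedSectionVars false

namespace H471Z.Dif

open Finsupp

/-- the elementary abelian group on `Z`. -/
abbrev V (Z : Type) := Z →₀ ZMod 2

/-- push forward along a map of index sets and a map of coefficients. -/
noncomputable def red {X X' M M' : Type} [AddCommGroup M] [AddCommGroup M'] (g : X → X')
    (h : M →+ M') : (X →₀ M) →+ (X' →₀ M') :=
  (Finsupp.mapRange.addMonoidHom h).comp (Finsupp.mapDomain.addMonoidHom g)

@[simp] theorem red_single {X X' M M' : Type} [AddCommGroup M] [AddCommGroup M'] (g : X → X')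
    (h : M →+ M') (x : X) (c : M) : red g h (single x c) = single (g x) (h c) := by
  simp [red]

section
variable {Z K : Type} [AddCommGroup Z] [CommRing K]

/-- shift. -/
noncomputable def sh {M : Type} [AddCommGroup M] (k : Z) : (Z →₀ M) →+ (Z →₀ M) :=
  red (fun i => i + k) (AddMonoidHom.id M)

@[simp] theorem sh_single {M : Type} [AddCommGroup M] (k i : Z) (c : M) :
    sh k (single i c) = single (i + k) c := by simp [sh]

@[simp] theorem sh_zero {M : Type} [AddCommGroup M] (v : Z →₀ M) : sh (0 : Z) v = v := by
  induction v using Finsupp.induction_linear with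
  | zero => simp
  | add f g hf hg => simp [hf, hg]
  | single a b => simp

theorem sh_sh {M : Type} [AddCommGroup M] (k k' : Z) (v : Z →₀ M) :
    sh k (sh k' v) = sh (k + k') v := by
  induction v using Finsupp.induction_linear with
  | zero => simp
  | add f g hf hg => simp [hf, hg]
  | single a b => simp [add_comm, add_left_comm]

theorem sh_smul (k : Z) (c : ZMod 2) (v : V Z) : sh k (c • v) = c • sh k v := by
  induction v using Finsupp.induction_linear with
  | zero => simp
  | add f g hf hg => simp [hf, hg]
  | single a b => rw [Finsupp.smul_single, sh_single, sh_single, Finsupp.smul_single]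

/-- reduction mod two. -/
noncomputable def bar (χ : K →+* ZMod 2) : (Z →₀ K) →+ V Z := red id χ.toAddMonoidHom

@[simp] theorem bar_single (χ : K →+* ZMod 2) (i : Z) (c : K) :
    bar χ (single i c) = single i (χ c) := by simp [bar]

/-- affine action on the group ring. -/
noncomputable def act (w : V Z) (k : Z) : (V Z →₀ K) →+ (V Z →₀ K) :=
  red (fun v => w + sh k v) (AddMonoidHom.id K)

@[simp] theorem act_single (w : V Z) (k : Z) (v : V Z) (c : K) :
    act w k (single v c) = single (w + sh k v) c := by simp [act]

/-- augmentation. -/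
noncomputable def eps : (V Z →₀ K) →+ K := Finsupp.liftAddHom (fun _ => AddMonoidHom.id K)

@[simp] theorem eps_single (v : V Z) (c : K) : eps (single v c) = c := by simp [eps]

/-- the additive map from the group ring to the group. -/
noncomputable def psi (χ : K →+* ZMod 2) : (V Z →₀ K) →+ V Z :=
  Finsupp.liftAddHom (fun v => ((smulAddHom (ZMod 2) (V Z)).flip v).comp χ.toAddMonoidHom)

@[simp] theorem psi_single (χ : K →+* ZMod 2) (v : V Z) (c : K) :
    psi χ (single v c) = χ c • v := by simp [psi]

@[simp] theorem act_zero (r : V Z →₀ K) : act (0 : V Z) (0 : Z) r = r := by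
  induction r using Finsupp.induction_linear with
  | zero => simp
  | add f g hf hg => simp [hf, hg]
  | single a b => simp

theorem act_act (w w' : V Z) (k k' : Z) (r : V Z →₀ K) :
    act w k (act w' k' r) = act (w + sh k w') (k + k') r := by
  induction r using Finsupp.induction_linear with
  | zero => simp
  | add f g hf hg => simp [hf, hg]
  | single a b => simp [sh_sh, add_assoc]

@[simp] theorem eps_act (w : V Z) (k : Z) (r : V Z →₀ K) : eps (act w k r) = eps r := by
  induction r using Finsupp.induction_linear with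
  | zero => simp
  | add f g hf hg => simp [hf, hg]
  | single a b => simp

theorem psi_act (χ : K →+* ZMod 2) (w : V Z) (k : Z) (r : V Z →₀ K) :
    psi χ (act w k r) = χ (eps r) • w + sh k (psi χ r) := by
  induction r using Finsupp.induction_linear with
  | zero => simp
  | add f g hf hg => simp only [map_add, hf, hg, add_smul]; abel
  | single a b => simp [sh_smul]

theorem bar_sh (χ : K →+* ZMod 2) (k : Z) (a : Z →₀ K) : bar χ (sh k a) = sh k (bar χ a) := by
  induction a using Finsupp.induction_linear with
  | zero => simp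
  | add f g hf hg => simp [hf, hg]
  | single a b => simp

theorem V_add_self (v : V Z) : v + v = 0 := by
  ext i
  simp only [Finsupp.coe_add, Pi.add_apply, Finsupp.coe_zero, Pi.zero_apply]
  generalize v i = c
  revert c
  decide

end

/-- The base group: `K[V] ⋊ (I ⋊ (K[Z] ⋊ Z))`. -/
@[ext] structure W (Z K : Type) [AddCommGroup Z] [CommRing K] (χ : K →+* ZMod 2) where
  n : V Z →₀ K
  f : V Z →₀ K
  a : Z →₀ K
  k : Z
  hf : eps f = 0

namespace W
variable {Z K : Type} [AddCommGroup Z] [CommRing K] {χ : K →+* ZMod 2}

/-- translation part of the image in the lamplighter group. -/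
noncomputable def P (x : W Z K χ) : V Z := psi χ x.f + bar χ x.a

noncomputable instance : Mul (W Z K χ) := ⟨fun x y =>
  ⟨x.n + act x.P x.k y.n, x.f + act (bar χ x.a) x.k y.f, x.a + sh x.k y.a, x.k + y.k,
    by simp [x.hf, y.hf]⟩⟩

instance : One (W Z K χ) := ⟨⟨0, 0, 0, 0, by simp⟩⟩

noncomputable instance : Inv (W Z K χ) := ⟨fun x =>
  ⟨- act (- sh (-x.k) x.P) (-x.k) x.n, - act (- sh (-x.k) (bar χ x.a)) (-x.k) x.f,
    - sh (-x.k) x.a, -x.k, by simp [x.hf]⟩⟩

@[simp] theorem mul_n (x y : W Z K χ) : (x * y).n = x.n + act x.P x.k y.n := rfl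
@[simp] theorem mul_f (x y : W Z K χ) : (x * y).f = x.f + act (bar χ x.a) x.k y.f := rfl
@[simp] theorem mul_a (x y : W Z K χ) : (x * y).a = x.a + sh x.k y.a := rfl
@[simp] theorem mul_k (x y : W Z K χ) : (x * y).k = x.k + y.k := rfl
@[simp] theorem one_n : (1 : W Z K χ).n = 0 := rfl
@[simp] theorem one_f : (1 : W Z K χ).f = 0 := rfl
@[simp] theorem one_a : (1 : W Z K χ).a = 0 := rfl
@[simp] theorem one_k : (1 : W Z K χ).k = 0 := rfl
@[simp] theorem inv_n (x : W Z K χ) : (x⁻¹).n = - act (- sh (-x.k) x.P) (-x.k) x.n := rfl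
@[simp] theorem inv_f (x : W Z K χ) :
    (x⁻¹).f = - act (- sh (-x.k) (bar χ x.a)) (-x.k) x.f := rfl
@[simp] theorem inv_a (x : W Z K χ) : (x⁻¹).a = - sh (-x.k) x.a := rfl
@[simp] theorem inv_k (x : W Z K χ) : (x⁻¹).k = -x.k := rfl

@[simp] theorem P_one : (1 : W Z K χ).P = 0 := by simp [P]

@[simp] theorem P_mul (x y : W Z K χ) : (x * y).P = x.P + sh x.k y.P := by
  simp only [P, mul_f, mul_a, map_add, psi_act, y.hf, bar_sh, map_zero, zero_smul, zero_add]
  abel

@[simp] theorem P_inv (x : W Z K χ) : (x⁻¹).P = - sh (-x.k) x.P := by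
  simp only [P, inv_f, inv_a, map_add, map_neg, psi_act, x.hf, bar_sh, map_zero, zero_smul,
    zero_add]
  abel

noncomputable instance : Group (W Z K χ) := Group.ofLeftAxioms
  (by
    intro x y z
    ext1
    · simp [act_act, add_assoc]
    · simp [act_act, add_assoc, bar_sh]
    · simp [sh_sh, add_assoc]
    · simp [add_assoc])
  (by intro x; ext1 <;> simp)
  (by
    intro x
    ext1
    · simp
    · simp [bar_sh]
    · simp
    · simp)

instance finFinsupp {X M : Type} [Finite X] [Finite M] [Zero M] : Finite (X →₀ M) :=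
  Finite.of_injective _ DFunLike.coe_injective

instance [Finite Z] [Finite K] : Finite (W Z K χ) :=
  Finite.of_injective (fun x : W Z K χ => (x.n, x.f, x.a, x.k)) (by
    intro x y h
    simp only [Prod.mk.injEq] at h
    exact W.ext h.1 h.2.1 h.2.2.1 h.2.2.2)

end W

section
variable {Z K Z' K' : Type} [AddCommGroup Z] [CommRing K] [AddCommGroup Z'] [CommRing K']

/-- induced map on the elementary abelian groups. -/
noncomputable def rV (g : Z →+ Z') : V Z →+ V Z' := red g (AddMonoidHom.id _)

@[simp] theorem rV_single (g : Z →+ Z') (i : Z) (c : ZMod 2) :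
    rV g (single i c) = single (g i) c := by simp [rV]

theorem red_sh {M M' : Type} [AddCommGroup M] [AddCommGroup M'] (g : Z →+ Z') (h : M →+ M')
    (k : Z) (a : Z →₀ M) : red g h (sh k a) = sh (g k) (red g h a) := by
  induction a using Finsupp.induction_linear with
  | zero => simp
  | add f g hf hg => simp [hf, hg]
  | single a b => simp

theorem rV_sh (g : Z →+ Z') (k : Z) (v : V Z) : rV g (sh k v) = sh (g k) (rV g v) :=
  red_sh _ _ _ _

theorem rV_smul (g : Z →+ Z') (c : ZMod 2) (v : V Z) : rV g (c • v) = c • rV g v := by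
  induction v using Finsupp.induction_linear with
  | zero => simp
  | add f g hf hg => simp [hf, hg]
  | single a b => rw [Finsupp.smul_single, rV_single, rV_single, Finsupp.smul_single]

theorem red_act (g : Z →+ Z') (h : K →+ K') (w : V Z) (k : Z) (r : V Z →₀ K) :
    red (rV g) h (act w k r) = act (rV g w) (g k) (red (rV g) h r) := by
  induction r using Finsupp.induction_linear with
  | zero => simp
  | add f g hf hg => simp [hf, hg]
  | single a b => simp [rV_sh]

theorem eps_red (g : Z →+ Z') (h : K →+ K') (r : V Z →₀ K) :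
    eps (red (rV g) h r) = h (eps r) := by
  induction r using Finsupp.induction_linear with
  | zero => simp
  | add f g hf hg => simp [hf, hg]
  | single a b => simp

theorem psi_red {χ : K →+* ZMod 2} {χ' : K' →+* ZMod 2} (g : Z →+ Z') (h : K →+ K')
    (hχ : ∀ c, χ' (h c) = χ c) (r : V Z →₀ K) :
    psi χ' (red (rV g) h r) = rV g (psi χ r) := by
  induction r using Finsupp.induction_linear with
  | zero => simp
  | add f g hf hg => simp [hf, hg]
  | single a b => simp [hχ, rV_smul]

theorem bar_red {χ : K →+* ZMod 2} {χ' : K' →+* ZMod 2} (g : Z →+ Z') (h : K →+ K')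
    (hχ : ∀ c, χ' (h c) = χ c) (a : Z →₀ K) :
    bar χ' (red g h a) = rV g (bar χ a) := by
  induction a using Finsupp.induction_linear with
  | zero => simp
  | add f g hf hg => simp [hf, hg]
  | single a b => simp [hχ]

/-- functoriality of the base group. -/
noncomputable def W.map {χ : K →+* ZMod 2} {χ' : K' →+* ZMod 2} (g : Z →+ Z') (h : K →+ K')
    (hχ : ∀ c, χ' (h c) = χ c) : W Z K χ →* W Z' K' χ' := MonoidHom.mk'
  (fun x => ⟨red (rV g) h x.n, red (rV g) h x.f, red g h x.a, g x.k, by simp [eps_red, x.hf]⟩)
  (by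
    intro x y
    ext1
    · simp [red_act, W.P, psi_red g h hχ, bar_red g h hχ]
    · simp [red_act, bar_red g h hχ]
    · simp [red_sh]
    · simp)

end

end H471Z.Dif
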